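import Mathlib
import Pool.Agent.Lib.MP_2166fc_an.Calc
import Pool.Agent.Lib.MP_2166fc_an.Radial

set_option autoImplicit false

open Set Filter Topology Metric InnerProductSpace Laplacian MeasureTheory

namespace Pool.Agent.Lib.MP_9a9339_an

open Pool.Agent.Lib.MP_2166fc_an (Sp)

/-- Quantitative form of a positive reaction, on `[0,1]` only. -/
structure React (f : ℝ → ℝ) (c L : ℝ) : Prop where
  c_pos : 0 < c
  L_pos : 0 < L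
  lower : ∀ s ∈ Icc (0:ℝ) 1, c * (s * (1 - s)) ≤ f s
  upper0 : ∀ s ∈ Icc (0:ℝ) 1, f s ≤ L * s
  upper1 : ∀ s ∈ Icc (0:ℝ) 1, f s ≤ L * (1 - s)
  lip : ∀ s ∈ Icc (0:ℝ) 1, ∀ t ∈ Icc (0:ℝ) 1, |f s - f t| ≤ L * |s - t|

/-- The geometric facts used about the domain: open, the complement is star-shaped about every
point of `ball 0 r₀`, and there are exterior balls of all radii `≤ ρ` at every boundary point. -/
structure Dom {n : ℕ} (Ω : Set (Sp n)) (r₀ ρ : ℝ) : Prop where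
  isOpen : IsOpen Ω
  r₀_pos : 0 < r₀
  ρ_pos : 0 < ρ
  star : ∀ z ∈ ball (0 : Sp n) r₀, ∀ y ∉ Ω, ∀ t ∈ Icc (0:ℝ) 1, (1 - t) • y + t • z ∉ Ω
  ext : ∀ p ∈ frontier Ω, ∀ s, 0 < s → s ≤ ρ → ∃ q, dist p q = s ∧ Disjoint (ball q s) Ω

/-- Positive solutions bounded by `1`, extended by zero outside `Ω`. -/
structure Sol {n : ℕ} (Ω : Set (Sp n)) (f : ℝ → ℝ) (u : Sp n → ℝ) : Prop where
  cont : Continuous u
  zero : ∀ x ∉ Ω, u x = 0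
  pos : ∀ x ∈ Ω, 0 < u x
  smooth : ContDiffOn ℝ 2 u Ω
  eq : ∀ x ∈ Ω, Δ u x = - f (u x)
  le_one : ∀ x, u x ≤ 1

variable {n : ℕ}

lemma Sol.nonneg {Ω : Set (Sp n)} {f : ℝ → ℝ} {u : Sp n → ℝ} (h : Sol Ω f u) (x : Sp n) :
    0 ≤ u x := by
  by_cases hx : x ∈ Ω
  · exact (h.pos x hx).le
  · exact (h.zero x hx).ge

lemma Sol.mem_Icc {Ω : Set (Sp n)} {f : ℝ → ℝ} {u : Sp n → ℝ} (h : Sol Ω f u) (x : Sp n) :
    u x ∈ Icc (0:ℝ) 1 := ⟨h.nonneg x, h.le_one x⟩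

lemma Sol.mem_of_pos {Ω : Set (Sp n)} {f : ℝ → ℝ} {u : Sp n → ℝ} (h : Sol Ω f u) {x : Sp n}
    (hx : 0 < u x) : x ∈ Ω := by
  by_contra hx'
  rw [h.zero x hx'] at hx
  exact lt_irrefl _ hx

end Pool.Agent.Lib.MP_9a9339_an
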