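import Mathlib
import Pool.Agent.Lib.MP_9a9339_an.Core

set_option autoImplicit false

open Set Filter Topology Metric InnerProductSpace Laplacian MeasureTheory

namespace Pool.Agent.Lib.MP_9a9339_an

open Pool.Agent.Lib.MP_2166fc_an (Sp)

variable {n : ℕ}

/-- Geometry 1: dilations with factor in `[0,1]` and centre `0` preserve the complement. -/
theorem Dom.smul_notMem {Ω : Set (Sp n)} {r₀ ρ : ℝ} (hΩ : Dom Ω r₀ ρ) {x : Sp n} (hx : x ∉ Ω)
    {lam : ℝ} (h0 : 0 ≤ lam) (h1 : lam ≤ 1) : lam • x ∉ Ω := by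
  have h := hΩ.star 0 (mem_ball_self hΩ.r₀_pos) x hx (1 - lam) ⟨by linarith, by linarith⟩
  rw [smul_zero, add_zero, sub_sub_cancel] at h
  exact h

/-- Geometry 2. -/
theorem Dom.ball_subset {Ω : Set (Sp n)} {r₀ ρ : ℝ} (hΩ : Dom Ω r₀ ρ) {x : Sp n} {lam : ℝ}
    (h0 : 0 < lam) (h1 : lam < 1) (hx : lam • x ∈ closure Ω) : ball x ((1 - lam) * r₀) ⊆ Ω := by
  intro y hy
  by_contra hyΩ
  have h2 : 0 < 1 - lam := by linarith
  have hopen : IsOpen {x' : Sp n | ‖(1 - lam)⁻¹ • (x' - lam • y)‖ < r₀} := by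
    apply isOpen_lt _ continuous_const
    fun_prop
  have hmem : lam • x ∈ {x' : Sp n | ‖(1 - lam)⁻¹ • (x' - lam • y)‖ < r₀} := by
    change ‖(1 - lam)⁻¹ • (lam • x - lam • y)‖ < r₀
    rw [← smul_sub, norm_smul, norm_smul, norm_inv, Real.norm_of_nonneg h2.le,
      Real.norm_of_nonneg h0.le, inv_mul_lt_iff₀ h2]
    rw [mem_ball, dist_comm, dist_eq_norm] at hy
    calc lam * ‖x - y‖ ≤ 1 * ‖x - y‖ := mul_le_mul_of_nonneg_right h1.le (norm_nonneg _)
      _ < (1 - lam) * r₀ := by rw [one_mul]; exact hy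
  obtain ⟨x', hx'1, hx'2⟩ := mem_closure_iff.mp hx _ hopen hmem
  have h3 := hΩ.star _ (mem_ball_zero_iff.mpr hx'1) y hyΩ (1 - lam) ⟨h2.le, by linarith⟩
  rw [sub_sub_cancel, smul_inv_smul₀ h2.ne', add_sub_cancel] at h3
  exact h3 hx'2

/-- Geometry 3: if `x ∈ Ω` and `closedBall x R ⊄ Ω`, there is an exterior ball of radius `s ≤ ρ`
whose centre is within `R + s` of `x`. -/
theorem Dom.exists_ext_ball {Ω : Set (Sp n)} {r₀ ρ : ℝ} (hΩ : Dom Ω r₀ ρ) {x : Sp n} {R s : ℝ}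
    (hx : x ∈ Ω) (hR : ¬ closedBall x R ⊆ Ω) (hs0 : 0 < s) (hs : s ≤ ρ) :
    ∃ q, dist x q ≤ R + s ∧ (∀ y ∈ closedBall q s, y ∉ Ω) := by
  obtain ⟨y, hy1, hy2⟩ := not_subset.mp hR
  have hR0 : 0 ≤ R := dist_nonneg.trans (mem_closedBall.mp hy1)
  obtain ⟨p, hp1, hp2⟩ : ∃ p ∈ segment ℝ x y, p ∈ frontier Ω := by
    by_contra hcon
    push Not at hcon
    have hfr : ∀ p ∈ segment ℝ x y, p ∉ Ω → p ∉ closure Ω := by
      intro p hp hpΩ hpc
      apply hcon p hp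
      rw [frontier, hΩ.isOpen.interior_eq]
      exact ⟨hpc, hpΩ⟩
    obtain ⟨p, -, hp1, hp2⟩ := (convex_segment (𝕜 := ℝ) x y).isPreconnected Ω (closure Ω)ᶜ
      hΩ.isOpen isClosed_closure.isOpen_compl
      (fun p hp => by
        by_cases hpΩ : p ∈ Ω
        · exact Or.inl hpΩ
        · exact Or.inr (hfr p hp hpΩ))
      ⟨x, left_mem_segment ℝ x y, hx⟩
      ⟨y, right_mem_segment ℝ x y, hfr y (right_mem_segment ℝ x y) hy2⟩
    exact hp2 (subset_closure hp1)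
  have hp3 : p ∈ closedBall x R :=
    (convex_closedBall x R).segment_subset (mem_closedBall_self hR0) hy1 hp1
  obtain ⟨q, hq1, hq2⟩ := hΩ.ext p hp2 s hs0 hs
  refine ⟨q, ?_, ?_⟩
  · have h1 := dist_triangle x p q
    rw [mem_closedBall, dist_comm] at hp3
    linarith
  · intro z hz hzΩ
    have h1 := hq2.closure_left hΩ.isOpen
    rw [closure_ball q hs0.ne'] at h1
    exact Set.disjoint_left.mp h1 hz hzΩ

/-- Laplacian of a dilate. -/
theorem lap_comp_smul {u : Sp n → ℝ} {lam : ℝ} {x : Sp n} (h : ContDiffAt ℝ 2 u (lam • x)) :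
    Δ (fun y => u (lam • y)) x = lam ^ 2 * Δ u (lam • x) := by
  have hcont : Tendsto (fun y : Sp n => lam • y) (𝓝 x) (𝓝 (lam • x)) :=
    (continuous_const_smul lam).tendsto x
  have hd : ∀ y : Sp n, HasFDerivAt (fun y : Sp n => lam • y)
      (lam • ContinuousLinearMap.id ℝ (Sp n)) y := fun y => (hasFDerivAt_id y).const_smul lam
  have h1 : fderiv ℝ (fun y => u (lam • y)) =ᶠ[𝓝 x] fun y => lam • fderiv ℝ u (lam • y) := by
    filter_upwards [hcont.eventually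
      (Pool.Agent.Lib.MP_2166fc_an.eventually_differentiableAt h)] with y hy
    have h2 := hy.hasFDerivAt.comp y (hd y)
    have h3 : fderiv ℝ (fun y => u (lam • y)) y =
        (fderiv ℝ u (lam • y)).comp (lam • ContinuousLinearMap.id ℝ (Sp n)) := h2.fderiv
    rw [h3]
    ext v
    simp
  have h4 : HasFDerivAt (fun y => lam • fderiv ℝ u (lam • y))
      (lam • (fderiv ℝ (fderiv ℝ u) (lam • x)).comp (lam • ContinuousLinearMap.id ℝ (Sp n))) x :=
    ((Pool.Agent.Lib.MP_2166fc_an.fderiv_differentiableAt h).hasFDerivAt.comp x (hd x)).const_smul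
      lam
  rw [Pool.Agent.Lib.MP_2166fc_an.lap_eq, Pool.Agent.Lib.MP_2166fc_an.lap_eq, h1.fderiv_eq,
    h4.fderiv, Finset.mul_sum]
  refine Finset.sum_congr rfl fun i _ => ?_
  simp only [smul_apply, ContinuousLinearMap.comp_apply,
    ContinuousLinearMap.id_apply, map_smul, smul_eq_mul]
  ring

/-- Laplacian of a translate. -/
theorem lap_comp_add {u : Sp n → ℝ} {b x : Sp n} (h : ContDiffAt ℝ 2 u (x + b)) :
    Δ (fun y => u (y + b)) x = Δ u (x + b) := by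
  have _ := h
  have h1 : fderiv ℝ (fun y => u (y + b)) = fun y => fderiv ℝ u (y + b) := by
    funext y
    exact fderiv_comp_add_right b
  rw [Pool.Agent.Lib.MP_2166fc_an.lap_eq, Pool.Agent.Lib.MP_2166fc_an.lap_eq, h1]
  refine Finset.sum_congr rfl fun i _ => ?_
  rw [fderiv_comp_add_right b]

end Pool.Agent.Lib.MP_9a9339_an
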