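import Mathlib
import Pool.Agent.Lib.MP_9a9339_an.Core
import Pool.Agent.Lib.MP_9a9339_an.Geometry

set_option autoImplicit false

open Set Filter Topology Metric InnerProductSpace Laplacian MeasureTheory

namespace Pool.Agent.Lib.MP_9a9339_an

open Pool.Agent.Lib.MP_2166fc_an (Sp)

variable {n : ℕ}

/-- Laplacian of the barrier `1 - A |y - q|^(-2j)`. -/
lemma barrier_lap (q p : Sp n) (A : ℝ) (j : ℕ) (hp : p ≠ q) :
    Δ (fun y : Sp n => (1 - A * (‖y - q‖ ^ 2) ^ (-(j:ℤ)) : ℝ)) p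
      = -((2 * j * (2 * j + 2 - n)) * (A * (‖p - q‖ ^ 2) ^ (-(j:ℤ) - 1))) := by
  have hpos : (0:ℝ) < ‖p - q‖ ^ 2 := by
    have : 0 < ‖p - q‖ := norm_pos_iff.mpr (sub_ne_zero.mpr hp)
    positivity
  have h1 : ∀ᶠ σ in 𝓝 (‖p - q‖ ^ 2), HasDerivAt (fun σ : ℝ => 1 - A * σ ^ (-(j:ℤ)))
      ((j * A) * σ ^ (-(j:ℤ) - 1)) σ := by
    filter_upwards [lt_mem_nhds hpos] with σ hσ
    have h := ((hasDerivAt_zpow (-(j:ℤ)) σ (Or.inl hσ.ne')).const_mul A).const_sub 1
    refine h.congr_deriv ?_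
    push_cast; ring
  have h2 : HasDerivAt (fun σ : ℝ => (j * A) * σ ^ (-(j:ℤ) - 1))
      ((j * A) * ((((-(j:ℤ) - 1 : ℤ)) : ℝ) * (‖p - q‖ ^ 2) ^ (-(j:ℤ) - 1 - 1))) (‖p - q‖ ^ 2) :=
    (hasDerivAt_zpow (-(j:ℤ) - 1) (‖p - q‖ ^ 2) (Or.inl hpos.ne')).const_mul (j * A)
  have h3 := Pool.Agent.Lib.MP_2166fc_an.lap_radial (n := n) (x0 := q) (x := p) h1 h2
  rw [h3]
  have h4 : (‖p - q‖ ^ 2) ^ (-(j:ℤ) - 1) = ‖p - q‖ ^ 2 * (‖p - q‖ ^ 2) ^ (-(j:ℤ) - 1 - 1) := by
    have h5 : -(j:ℤ) - 1 = 1 + (-(j:ℤ) - 1 - 1) := by ring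
    rw [h5, zpow_add₀ hpos.ne' 1, zpow_one]
    congr 2
    ring
  rw [h4]
  push_cast; ring

/-- Regularity of the barrier. -/
lemma barrier_contDiffAt (q p : Sp n) (A : ℝ) (j : ℕ) (hp : p ≠ q) :
    ContDiffAt ℝ 2 (fun y : Sp n => 1 - A * (‖y - q‖ ^ 2) ^ (-(j:ℤ))) p := by
  have hpos : (‖p - q‖ ^ 2) ^ j ≠ 0 := by
    have : 0 < ‖p - q‖ := norm_pos_iff.mpr (sub_ne_zero.mpr hp)
    positivity
  have h1 : ContDiffAt ℝ 2 (fun y : Sp n => (‖y - q‖ ^ 2) ^ j) p := by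
    have : ContDiff ℝ 2 (fun y : Sp n => (‖y - q‖ ^ 2) ^ j) :=
      ((contDiff_norm_sq ℝ).comp (contDiff_id.sub contDiff_const)).pow j
    exact this.contDiffAt
  have h2 : ContDiffAt ℝ 2 (fun y : Sp n => 1 - A * ((‖y - q‖ ^ 2) ^ j)⁻¹) p :=
    contDiffAt_const.sub (contDiffAt_const.mul (h1.inv hpos))
  have h3 : (fun y : Sp n => 1 - A * (‖y - q‖ ^ 2) ^ (-(j:ℤ)))
      = fun y : Sp n => 1 - A * ((‖y - q‖ ^ 2) ^ j)⁻¹ := by
    ext y
    rw [zpow_neg, zpow_natCast]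
  rw [h3]
  exact h2

/-- Weak maximum principle at an interior local maximum of `u - a φ`. -/
lemma barrier_locmax {u φ : Sp n → ℝ} {p : Sp n} (a : ℝ) (hu : ContDiffAt ℝ 2 u p)
    (hφ : ContDiffAt ℝ 2 φ p) (hmax : IsLocalMax (fun y => u y - a * φ y) p) :
    Δ u p ≤ a * Δ φ p := by
  have hmin : IsLocalMin (fun y => a * φ y - u y) p := by
    filter_upwards [hmax] with y hy
    linarith
  have haφ : ContDiffAt ℝ 2 (fun y => a * φ y) p := contDiffAt_const.mul hφ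
  have h0 := Pool.Agent.Lib.MP_2166fc_an.lap_nonneg_of_isLocalMin (haφ.sub hu) hmin
  have e0 : (fun y => a * φ y - u y) = (fun y => a * φ y) + (fun y => (-1 : ℝ) * u y) := by
    ext y; simp; ring
  have hmu : ContDiffAt ℝ 2 (fun y => (-1 : ℝ) * u y) p := contDiffAt_const.mul hu
  have e1 : Δ ((fun y => a * φ y) + (fun y => (-1 : ℝ) * u y)) p
      = Δ (fun y => a * φ y) p + Δ (fun y => (-1 : ℝ) * u y) p := haφ.laplacian_add hmu
  have e2 : Δ (fun y => a * φ y) p = a * Δ φ p := by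
    have := laplacian_smul (𝕜 := ℝ) a hφ
    simpa [Pi.smul_def] using this
  have e3 : Δ (fun y => (-1 : ℝ) * u y) p = (-1) * Δ u p := by
    have := laplacian_smul (𝕜 := ℝ) (-1 : ℝ) hu
    simpa only [Pi.smul_def, smul_eq_mul] using this
  rw [e0, e1, e2, e3] at h0
  linarith

/-- T9 (barrier at the boundary). -/
theorem boundary_barrier (n : ℕ) {f : ℝ → ℝ} {c L ρ r K : ℝ} (hf : React f c L) (hρ : 0 < ρ)
    (hr : 0 < r) (hK : 0 < K) :
    ∃ t > 0, ∀ (Ω : Set (Sp n)) (r₀ : ℝ) (u : Sp n → ℝ) (y : Sp n), Dom Ω r₀ ρ → Sol Ω f u →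
      y ∈ Ω → (∀ p ∈ closedBall y r, u p ≤ K * u y) → ball y t ⊆ Ω := by
  have hL := hf.L_pos
  -- constants
  obtain ⟨K', hK'1, hKK'⟩ : ∃ K' : ℝ, 1 ≤ K' ∧ K ≤ K' := ⟨max K 1, le_max_right _ _, le_max_left _ _⟩
  have hK'0 : 0 < K' := by linarith
  set j : ℕ := n + 1 with hj
  set D : ℝ := 2 * j * (2 * j + 2 - n) with hD
  have hDpos : 0 < D := by
    have h1 : (j : ℝ) = n + 1 := by rw [hj]; push_cast; ring
    have h2 : (0:ℝ) ≤ n := Nat.cast_nonneg n
    rw [hD, h1]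
    have : (0:ℝ) < 2 * (n + 1) + 2 - n := by linarith
    positivity
  obtain ⟨s, hs0, hsρ, hsr, hsL⟩ : ∃ s : ℝ, 0 < s ∧ s ≤ ρ ∧ s ≤ r / 4 ∧
      s ^ 2 * (L * 4 ^ (j + 1)) < 2 * D := by
    set B : ℝ := L * 4 ^ (j + 1) with hB
    have hBpos : 0 < B := by positivity
    refine ⟨min (min ρ (r / 4)) (min 1 (D / B)), ?_, ?_, ?_, ?_⟩
    · have := div_pos hDpos hBpos
      refine lt_min (lt_min hρ (by linarith)) (lt_min one_pos this)
    · exact (min_le_left _ _).trans (min_le_left _ _)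
    · exact (min_le_left _ _).trans (min_le_right _ _)
    · set s : ℝ := min (min ρ (r / 4)) (min 1 (D / B)) with hs
      have hs0 : 0 < s := by
        have := div_pos hDpos hBpos
        exact lt_min (lt_min hρ (by linarith)) (lt_min one_pos this)
      have hs1 : s ≤ 1 := (min_le_right _ _).trans (min_le_left _ _)
      have hs2 : s ≤ D / B := (min_le_right _ _).trans (min_le_right _ _)
      have hs3 : s * B ≤ D := (le_div_iff₀ hBpos).mp hs2
      have hs4 : s ^ 2 ≤ s := by nlinarith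
      nlinarith
  have hjpos : (0:ℝ) < j := by rw [hj]; push_cast; positivity
  set t : ℝ := s / (8 * j * K') with ht
  have ht0 : 0 < t := by positivity
  have hts : t ≤ s := by
    rw [ht, div_le_iff₀ (by positivity)]
    have h1 : (1:ℝ) ≤ j := by rw [hj]; push_cast; linarith [Nat.cast_nonneg (α := ℝ) n]
    have h2 : (1:ℝ) ≤ 8 * j * K' := by nlinarith
    nlinarith
  refine ⟨t, ht0, ?_⟩
  intro Ω r₀ u y hΩ hu hy hKu
  by_contra hball
  have hcb : ¬ closedBall y t ⊆ Ω := fun h => hball (ball_subset_closedBall.trans h)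
  obtain ⟨q, hyq, hqΩ⟩ := hΩ.exists_ext_ball hy hcb hs0 hsρ
  set b : ℝ := u y with hb
  have hb0 : 0 < b := hu.pos y hy
  -- distances
  have hsy : s < dist y q := by
    by_contra h
    exact hqΩ y (mem_closedBall.mpr (not_lt.mp h)) hy
  set A : ℝ := (s ^ 2) ^ (j : ℤ) with hA
  have hA0 : 0 < A := by positivity
  set φ : Sp n → ℝ := fun p => 1 - A * (‖p - q‖ ^ 2) ^ (-(j:ℤ)) with hφ
  have hφnonneg : ∀ p, s ≤ dist p q → 0 ≤ φ p := by
    intro p hp
    rw [dist_eq_norm] at hp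
    have h1 : A ≤ (‖p - q‖ ^ 2) ^ (j:ℤ) := by
      rw [hA, zpow_natCast, zpow_natCast]
      gcongr
    have h2 : 0 < (‖p - q‖ ^ 2) ^ (j:ℤ) := lt_of_lt_of_le hA0 h1
    have h3 : A * (‖p - q‖ ^ 2) ^ (-(j:ℤ)) ≤ 1 := by
      rw [zpow_neg, ← div_eq_mul_inv, div_le_one h2]
      exact h1
    simp only [hφ]
    linarith
  have hφ34 : ∀ p, dist p q = 2 * s → 3 / 4 ≤ φ p := by
    intro p hp
    rw [dist_eq_norm] at hp
    simp only [hφ, hA, hp]
    have h1 : ((2 * s) ^ 2) ^ (-(j:ℤ)) = (4:ℝ) ^ (-(j:ℤ)) * (s ^ 2) ^ (-(j:ℤ)) := by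
      rw [← mul_zpow]; ring_nf
    have h2 : (s ^ 2) ^ (j:ℤ) * (s ^ 2) ^ (-(j:ℤ)) = 1 := by
      rw [← zpow_add₀ (by positivity)]; simp
    have h3 : (s ^ 2) ^ (j:ℤ) * ((4:ℝ) ^ (-(j:ℤ)) * (s ^ 2) ^ (-(j:ℤ))) = (4:ℝ) ^ (-(j:ℤ)) := by
      calc (s ^ 2) ^ (j:ℤ) * ((4:ℝ) ^ (-(j:ℤ)) * (s ^ 2) ^ (-(j:ℤ)))
          = (4:ℝ) ^ (-(j:ℤ)) * ((s ^ 2) ^ (j:ℤ) * (s ^ 2) ^ (-(j:ℤ))) := by ring
        _ = _ := by rw [h2, mul_one]
    rw [h1, h3]
    have h4 : (4:ℝ) ^ (-(j:ℤ)) ≤ 1 / 4 := by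
      rw [zpow_neg, zpow_natCast, hj, pow_succ, one_div]
      apply inv_anti₀ (by norm_num)
      have : (1:ℝ) ≤ 4 ^ n := one_le_pow₀ (by norm_num)
      linarith
    linarith
  -- the annulus
  set An : Set (Sp n) := closedBall q (2 * s) \ ball q s with hAn
  have hAnc : IsCompact An := (isCompact_closedBall q (2 * s)).diff isOpen_ball
  have hyAn : y ∈ An := by
    refine ⟨mem_closedBall.mpr (by linarith), ?_⟩
    simp only [mem_ball, not_lt]
    exact hsy.le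
  have hneq : ∀ p ∈ An, p ≠ q := by
    intro p hp h
    rw [h] at hp
    exact hp.2 (mem_ball_self hs0)
  have hφcont : ContinuousOn φ An := fun p hp =>
    (barrier_contDiffAt q p A j (hneq p hp)).continuousAt.continuousWithinAt
  set G : Sp n → ℝ := fun p => u p - (2 * K' * b) * φ p with hG
  have hGcont : ContinuousOn G An :=
    hu.cont.continuousOn.sub (continuousOn_const.mul hφcont)
  obtain ⟨p, hpAn, hpmax⟩ := hAnc.exists_isMaxOn ⟨y, hyAn⟩ hGcont
  have hps : s ≤ dist p q := by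
    have := hpAn.2
    simpa only [mem_ball, not_lt] using this
  have hp2s : dist p q ≤ 2 * s := mem_closedBall.mp hpAn.1
  have hpy : p ∈ closedBall y r := by
    rw [mem_closedBall]
    have h1 := dist_triangle p q y
    rw [dist_comm q y] at h1
    linarith
  have hup : u p ≤ K' * b := (hKu p hpy).trans (mul_le_mul_of_nonneg_right hKK' hb0.le)
  -- the claim
  have hclaim : G p ≤ 0 := by
    by_contra hGp
    push Not at hGp
    have hφp := hφnonneg p hps
    have hup0 : 0 < u p := by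
      have h1 : 0 ≤ (2 * K' * b) * φ p := by positivity
      simp only [hG] at hGp
      linarith
    have hpΩ : p ∈ Ω := hu.mem_of_pos hup0
    have hps' : s < dist p q := by
      by_contra h
      exact hqΩ p (mem_closedBall.mpr (not_lt.mp h)) hpΩ
    have hp2s' : dist p q < 2 * s := by
      rcases lt_or_eq_of_le hp2s with h | h
      · exact h
      · exfalso
        have h1 := hφ34 p h
        simp only [hG] at hGp
        have h2 : (2 * K' * b) * (3 / 4) ≤ (2 * K' * b) * φ p :=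
          mul_le_mul_of_nonneg_left h1 (by positivity)
        nlinarith [mul_pos hK'0 hb0]
    have hnhds : An ∈ 𝓝 p := by
      have hopen : IsOpen {p : Sp n | s < dist p q ∧ dist p q < 2 * s} := by
        apply IsOpen.inter
        · exact isOpen_lt continuous_const (continuous_id.dist continuous_const)
        · exact isOpen_lt (continuous_id.dist continuous_const) continuous_const
      refine Filter.mem_of_superset (hopen.mem_nhds ⟨hps', hp2s'⟩) ?_
      rintro z ⟨hz1, hz2⟩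
      refine ⟨mem_closedBall.mpr hz2.le, ?_⟩
      simp only [mem_ball, not_lt]
      exact hz1.le
    have hlm : IsLocalMax (fun z => u z - (2 * K' * b) * φ z) p := by
      filter_upwards [hnhds] with z hz
      exact hpmax hz
    have hpq := hneq p hpAn
    have hlap := barrier_locmax (2 * K' * b) (hu.smooth.contDiffAt (hΩ.isOpen.mem_nhds hpΩ))
      (barrier_contDiffAt q p A j hpq) hlm
    rw [hu.eq p hpΩ, barrier_lap q p A j hpq] at hlap
    have hfu := hf.upper0 (u p) (hu.mem_Icc p)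
    -- lower bound for the barrier Laplacian
    have hpq0 : 0 < ‖p - q‖ ^ 2 := by
      have : 0 < ‖p - q‖ := norm_pos_iff.mpr (sub_ne_zero.mpr hpq)
      positivity
    have hlow : L < 2 * (D * (A * (‖p - q‖ ^ 2) ^ (-(j:ℤ) - 1))) := by
      have h1 : ‖p - q‖ ^ 2 ≤ 4 * s ^ 2 := by
        rw [dist_eq_norm] at hp2s
        nlinarith [norm_nonneg (p - q)]
      have h2 : (‖p - q‖ ^ 2) ^ (-(j:ℤ) - 1) = ((‖p - q‖ ^ 2) ^ (j + 1))⁻¹ := by
        have h0 : -(j:ℤ) - 1 = -((j + 1 : ℕ) : ℤ) := by push_cast; ring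
        rw [h0, zpow_neg, zpow_natCast]
      have h3 : ((4 * s ^ 2) ^ (j + 1))⁻¹ ≤ ((‖p - q‖ ^ 2) ^ (j + 1))⁻¹ := by
        apply inv_anti₀ (by positivity)
        gcongr
      have h4 : A * ((4 * s ^ 2) ^ (j + 1))⁻¹ = (4 ^ (j + 1) * s ^ 2)⁻¹ := by
        rw [hA, zpow_natCast, mul_pow, pow_succ (s ^ 2) j]
        have hs2 : (s ^ 2) ^ j ≠ 0 := by positivity
        rw [mul_inv, mul_inv, mul_inv]
        field_simp
      have h5 : (4 ^ (j + 1) * s ^ 2)⁻¹ ≤ A * (‖p - q‖ ^ 2) ^ (-(j:ℤ) - 1) := by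
        rw [h2, ← h4]
        exact mul_le_mul_of_nonneg_left h3 hA0.le
      have h6 : L < 2 * (D * (4 ^ (j + 1) * s ^ 2)⁻¹) := by
        have h7 : 0 < 4 ^ (j + 1) * s ^ 2 := by positivity
        have h8 : 2 * (D * (4 ^ (j + 1) * s ^ 2)⁻¹) = (2 * D) / (4 ^ (j + 1) * s ^ 2) := by
          field_simp
        rw [h8, lt_div_iff₀ h7]
        nlinarith
      have h9 : D * (4 ^ (j + 1) * s ^ 2)⁻¹ ≤ D * (A * (‖p - q‖ ^ 2) ^ (-(j:ℤ) - 1)) :=
        mul_le_mul_of_nonneg_left h5 hDpos.le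
      linarith
    have hKb : 0 < K' * b := by positivity
    have h10 : K' * b * L < K' * b * (2 * (D * (A * (‖p - q‖ ^ 2) ^ (-(j:ℤ) - 1)))) :=
      mul_lt_mul_of_pos_left hlow hKb
    have h11 : f (u p) ≤ L * (K' * b) :=
      hfu.trans (mul_le_mul_of_nonneg_left hup hL.le)
    rw [← hD] at hlap
    have h12 : (2 * K' * b) * -(D * (A * (‖p - q‖ ^ 2) ^ (-(j:ℤ) - 1)))
        = -(K' * b * (2 * (D * (A * (‖p - q‖ ^ 2) ^ (-(j:ℤ) - 1))))) := by ring
    rw [h12] at hlap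
    linarith
  have hGy : G y ≤ 0 := (hpmax hyAn).trans hclaim
  -- contradiction at y
  have hyq0 : 0 < dist y q := by linarith
  have hfin : φ y < 1 / (2 * K') := by
    have h1 : (1 - 2 * j * (t / (s + t)) : ℝ) ≤ (s / (s + t)) ^ (2 * j) := by
      have hst : 0 < s + t := by linarith
      have h2 : s / (s + t) = 1 + (-(t / (s + t))) := by field_simp; ring
      have h3 : (-2 : ℝ) ≤ -(t / (s + t)) := by
        have : t / (s + t) ≤ 1 := by rw [div_le_one hst]; linarith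
        linarith
      have h4 := one_add_mul_le_pow h3 (2 * j)
      rw [h2]
      push_cast at h4
      linarith
    have h2 : 2 * j * (t / (s + t)) < 1 / (2 * K') := by
      have h3 : t / (s + t) < t / s := by
        apply div_lt_div_of_pos_left ht0 hs0
        linarith
      have h4 : 2 * j * (t / s) = 1 / (4 * K') := by
        rw [ht]; field_simp; norm_num
      have h5 : 2 * j * (t / (s + t)) < 2 * j * (t / s) := by
        apply mul_lt_mul_of_pos_left h3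
        positivity
      have h6 : 1 / (4 * K') < 1 / (2 * K') := by
        apply one_div_lt_one_div_of_lt
        · positivity
        · linarith
      linarith
    have h3 : (s / (s + t)) ^ (2 * j) ≤ A * (‖y - q‖ ^ 2) ^ (-(j:ℤ)) := by
      rw [hA, zpow_neg, zpow_natCast, zpow_natCast, ← div_eq_mul_inv, ← div_pow, ← div_pow,
        ← pow_mul]
      apply pow_le_pow_left₀ (by positivity)
      rw [← dist_eq_norm]
      apply div_le_div_of_nonneg_left hs0.le hyq0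
      linarith
    simp only [hφ]
    linarith
  simp only [hG] at hGy
  have h1 : (2 * K' * b) * φ y < (2 * K' * b) * (1 / (2 * K')) :=
    mul_lt_mul_of_pos_left hfin (by positivity)
  have h2 : (2 * K' * b) * (1 / (2 * K')) = b := by field_simp
  linarith

end Pool.Agent.Lib.MP_9a9339_an
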