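import Mathlib
import Pool.Agent.Lib.MP_9a9339_an.Core

set_option autoImplicit false

open Set Filter Topology Metric InnerProductSpace Laplacian MeasureTheory

namespace Pool.Agent.Lib.MP_9a9339_an

open Pool.Agent.Lib.MP_2166fc_an (Sp)

variable {n : ℕ}

/-- The radial weight `(1 - |z|^2)_+^2`. -/
noncomputable def Psi (n : ℕ) (z : Sp n) : ℝ := (max (1 - ‖z‖ ^ 2) 0) ^ 2

/-- The radial weight `(1 - |z|^2)_+^3 / 6`. -/
noncomputable def mvPhi (n : ℕ) (z : Sp n) : ℝ := (max (1 - ‖z‖ ^ 2) 0) ^ 3 / 6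

lemma mv_hasDerivAt (p : ℝ) :
    HasDerivAt (fun p : ℝ => (max p 0) ^ 3 / 6) ((max p 0) ^ 2 / 2) p := by
  refine hasDerivAt_of_hasDerivAt_of_ne' (x := 0) (g := fun p : ℝ => (max p 0) ^ 2 / 2)
    ?_ ?_ ?_ p
  · intro y hy
    rcases lt_or_gt_of_ne hy with h | h
    · have h1 : (fun p : ℝ => (max p 0) ^ 3 / 6) =ᶠ[𝓝 y] fun _ => 0 := by
        filter_upwards [Iio_mem_nhds h] with q hq
        rw [max_eq_right (le_of_lt hq)]
        norm_num
      have h2 : (max y 0) ^ 2 / 2 = 0 := by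
        rw [max_eq_right h.le]
        norm_num
      rw [h2]
      exact (hasDerivAt_const y (0 : ℝ)).congr_of_eventuallyEq h1
    · have h1 : (fun p : ℝ => (max p 0) ^ 3 / 6) =ᶠ[𝓝 y] fun q => q ^ 3 / 6 := by
        filter_upwards [Ioi_mem_nhds h] with q hq
        rw [max_eq_left (le_of_lt hq)]
      have h2 : (max y 0) ^ 2 / 2 = (3 * y ^ 2) / 6 := by
        rw [max_eq_left h.le]
        ring
      rw [h2]
      have h3 : HasDerivAt (fun q : ℝ => q ^ 3 / 6) ((3 * y ^ 2) / 6) y := by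
        simpa using (hasDerivAt_pow 3 y).div_const 6
      exact h3.congr_of_eventuallyEq h1
  · fun_prop
  · fun_prop

lemma mv_Psi_cont : Continuous (Psi n) := by
  unfold Psi
  fun_prop

lemma mv_Phi_cont : Continuous (mvPhi n) := by
  unfold mvPhi
  fun_prop

lemma mv_Psi_nonneg (z : Sp n) : 0 ≤ Psi n z := by
  unfold Psi
  positivity

lemma mv_Phi_nonneg (z : Sp n) : 0 ≤ mvPhi n z := by
  unfold mvPhi
  positivity

lemma mv_max_zero {z : Sp n} (hz : 1 < ‖z‖) : max (1 - ‖z‖ ^ 2) 0 = 0 := by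
  apply max_eq_right
  nlinarith [norm_nonneg z]

lemma mv_Psi_zero {z : Sp n} (hz : 1 < ‖z‖) : Psi n z = 0 := by
  unfold Psi
  rw [mv_max_zero hz]
  norm_num

lemma mv_Phi_zero {z : Sp n} (hz : 1 < ‖z‖) : mvPhi n z = 0 := by
  unfold mvPhi
  rw [mv_max_zero hz]
  norm_num

lemma mv_Phi_le (z : Sp n) : mvPhi n z ≤ Psi n z := by
  unfold mvPhi Psi
  have h1 : max (1 - ‖z‖ ^ 2) 0 ≤ 1 := max_le (by nlinarith [norm_nonneg z]) zero_le_one
  have h2 : 0 ≤ max (1 - ‖z‖ ^ 2) 0 := le_max_right _ _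
  nlinarith [mul_nonneg (sq_nonneg (max (1 - ‖z‖ ^ 2) 0)) (sub_nonneg.2 h1),
    sq_nonneg (max (1 - ‖z‖ ^ 2) 0)]

lemma mv_integrable {g : Sp n → ℝ} (hg : Continuous g) (h0 : ∀ z, 1 < ‖z‖ → g z = 0) :
    Integrable g := by
  refine hg.integrable_of_hasCompactSupport ?_
  refine HasCompactSupport.intro (isCompact_closedBall (0 : Sp n) 1) fun z hz => h0 z ?_
  rwa [mem_closedBall_zero_iff, not_le] at hz

lemma mv_fderiv_Phi (z : Sp n) :
    DifferentiableAt ℝ (mvPhi n) z ∧ ∀ v, fderiv ℝ (mvPhi n) z v = -(Psi n z * inner ℝ z v) := by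
  have h1 : HasFDerivAt (fun z : Sp n => 1 - ‖z‖ ^ 2)
      (-((2 : ℕ) • (innerSL ℝ z : Sp n →L[ℝ] ℝ))) z :=
    (hasStrictFDerivAt_norm_sq z).hasFDerivAt.const_sub 1
  have h2 := (mv_hasDerivAt (1 - ‖z‖ ^ 2)).comp_hasFDerivAt z h1
  have h3 : HasFDerivAt (mvPhi n) (((max (1 - ‖z‖ ^ 2) 0) ^ 2 / 2) •
      (-((2 : ℕ) • (innerSL ℝ z : Sp n →L[ℝ] ℝ)))) z := h2
  refine ⟨h3.differentiableAt, fun v => ?_⟩
  rw [h3.fderiv]
  simp [Psi]
  ring

section
variable {h : Sp n → ℝ} (hh : ContDiff ℝ 2 h) (x : Sp n)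
include hh

lemma mv_cont_fderiv : Continuous (fderiv ℝ h) := hh.continuous_fderiv (by norm_num)

lemma mv_diff_fderiv : Differentiable ℝ (fderiv ℝ h) :=
  (hh.fderiv_right (m := 1) (by norm_num)).differentiable (by norm_num)

lemma mv_cont_fderiv2 : Continuous (fderiv ℝ (fderiv ℝ h)) :=
  (hh.fderiv_right (m := 1) (by norm_num)).continuous_fderiv (by norm_num)

lemma mv_cont_lap : Continuous (Δ h) := by
  have h1 : Δ h = fun x => ∑ i, fderiv ℝ (fderiv ℝ h) x (EuclideanSpace.basisFun (Fin n) ℝ i)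
      (EuclideanSpace.basisFun (Fin n) ℝ i) := by
    funext x
    exact Pool.Agent.Lib.MP_2166fc_an.lap_eq h x
  rw [h1]
  have := mv_cont_fderiv2 hh
  fun_prop

lemma mv_deriv (t : ℝ) : HasDerivAt (fun t : ℝ => ∫ z, Psi n z * h (x + t • z))
    (∫ z, Psi n z * fderiv ℝ h (x + t • z) z) t := by
  have hc := mv_cont_fderiv hh
  have hh0 : Continuous h := hh.continuous
  have hP := mv_Psi_cont (n := n)
  obtain ⟨C, hC⟩ := (isCompact_closedBall x (|t| + 1)).exists_bound_of_continuousOn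
    hc.continuousOn
  have hC0 : 0 ≤ C := (norm_nonneg _).trans (hC x (mem_closedBall_self (by positivity)))
  refine (hasDerivAt_integral_of_dominated_loc_of_deriv_le (s := ball t 1)
    (F := fun (t : ℝ) z => Psi n z * h (x + t • z))
    (F' := fun (t : ℝ) z => Psi n z * fderiv ℝ h (x + t • z) z) (bound := fun z => Psi n z * C)
    (ball_mem_nhds t one_pos) ?_ ?_ ?_ ?_ ?_ ?_).2
  · exact Eventually.of_forall fun s =>
      Continuous.aestronglyMeasurable (by fun_prop)
  · refine mv_integrable (by fun_prop) fun z hz => ?_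
    rw [mv_Psi_zero hz, zero_mul]
  · exact Continuous.aestronglyMeasurable (by fun_prop)
  · refine Eventually.of_forall fun z s hs => ?_
    rcases lt_or_ge 1 ‖z‖ with hz | hz
    · rw [mv_Psi_zero hz, zero_mul, zero_mul, norm_zero]
    · rw [norm_mul, Real.norm_of_nonneg (mv_Psi_nonneg z)]
      refine mul_le_mul_of_nonneg_left ?_ (mv_Psi_nonneg z)
      have h1 : x + s • z ∈ closedBall x (|t| + 1) := by
        rw [mem_closedBall, dist_eq_norm, add_sub_cancel_left, norm_smul, Real.norm_eq_abs]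
        have h2 : |s| ≤ |t| + 1 := by
          rw [mem_ball, Real.dist_eq] at hs
          have h3 := abs_sub_abs_le_abs_sub s t
          linarith
        calc |s| * ‖z‖ ≤ (|t| + 1) * 1 := mul_le_mul h2 hz (norm_nonneg _) (by positivity)
          _ = |t| + 1 := mul_one _
      calc ‖fderiv ℝ h (x + s • z) z‖ ≤ ‖fderiv ℝ h (x + s • z)‖ * ‖z‖ :=
            ContinuousLinearMap.le_opNorm _ _
        _ ≤ C * 1 := mul_le_mul (hC _ h1) hz (norm_nonneg _) hC0
        _ = C := mul_one C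
  · refine mv_integrable (by fun_prop) fun z hz => ?_
    rw [mv_Psi_zero hz, zero_mul]
  · refine Eventually.of_forall fun z s _ => ?_
    exact (Pool.Agent.Lib.MP_2166fc_an.deriv_line
      ((hh.differentiable (by norm_num)) _)).const_mul _

lemma mv_parts (t : ℝ) : ∫ z, Psi n z * fderiv ℝ h (x + t • z) z =
    t * ∫ z, mvPhi n z * Δ h (x + t • z) := by
  have hc := mv_cont_fderiv hh
  have hc2 := mv_cont_fderiv2 hh
  have hd := mv_diff_fderiv hh
  have hP := mv_Psi_cont (n := n)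
  have hQ := mv_Phi_cont (n := n)
  set e : Fin n → Sp n := fun i => EuclideanSpace.basisFun (Fin n) ℝ i with he
  have hg : ∀ i z, HasFDerivAt (fun z : Sp n => fderiv ℝ h (x + t • z) (e i))
      (t • (fderiv ℝ (fderiv ℝ h) (x + t • z)).flip (e i)) z := by
    intro i z
    have h1 : HasFDerivAt (fun z : Sp n => x + t • z) (t • ContinuousLinearMap.id ℝ (Sp n)) z :=
      ((hasFDerivAt_id z).const_smul t).const_add x
    have h2 := (hd (x + t • z)).hasFDerivAt.comp z h1
    have h3 := h2.clm_apply (hasFDerivAt_const (e i) z)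
    refine HasFDerivAt.congr_fderiv h3 ?_
    ext v
    simp
  have hgd : ∀ i z v, fderiv ℝ (fun z : Sp n => fderiv ℝ h (x + t • z) (e i)) z v =
      t * fderiv ℝ (fderiv ℝ h) (x + t • z) v (e i) := by
    intro i z v
    rw [(hg i z).fderiv]
    simp
  have h1 : ∀ z, Psi n z * fderiv ℝ h (x + t • z) z =
      ∑ i, -(fderiv ℝ (mvPhi n) z (e i) * fderiv ℝ h (x + t • z) (e i)) := by
    intro z
    have h2 : z = ∑ i, inner ℝ (e i) z • e i :=
      ((EuclideanSpace.basisFun (Fin n) ℝ).sum_repr' z).symm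
    have h3 : fderiv ℝ h (x + t • z) z = ∑ i, inner ℝ (e i) z * fderiv ℝ h (x + t • z) (e i) := by
      have h5 := congrArg (fderiv ℝ h (x + t • z)) h2
      rw [map_sum] at h5
      simpa using h5
    rw [h3, Finset.mul_sum]
    refine Finset.sum_congr rfl fun i _ => ?_
    rw [(mv_fderiv_Phi z).2, real_inner_comm]
    ring
  have hfc : ∀ i, Continuous fun z => fderiv ℝ (mvPhi n) z (e i) := by
    intro i
    have h2 : (fun z => fderiv ℝ (mvPhi n) z (e i)) = fun z => -(Psi n z * inner ℝ z (e i)) := by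
      funext z
      exact (mv_fderiv_Phi z).2 (e i)
    rw [h2]
    fun_prop
  have hf0 : ∀ i z, 1 < ‖z‖ → fderiv ℝ (mvPhi n) z (e i) = 0 := by
    intro i z hz
    rw [(mv_fderiv_Phi z).2, mv_Psi_zero hz, zero_mul, neg_zero]
  have hi : ∀ i, Integrable fun z =>
      fderiv ℝ (mvPhi n) z (e i) * fderiv ℝ h (x + t • z) (e i) := by
    intro i
    have := hfc i
    refine mv_integrable (by fun_prop) fun z hz => ?_
    rw [hf0 i z hz, zero_mul]
  have hi2 : ∀ i, Integrable fun z =>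
      mvPhi n z * fderiv ℝ (fun z : Sp n => fderiv ℝ h (x + t • z) (e i)) z (e i) := by
    intro i
    simp only [hgd]
    refine mv_integrable (by fun_prop) fun z hz => ?_
    rw [mv_Phi_zero hz, zero_mul]
  have hi3 : ∀ i, Integrable fun z => mvPhi n z * fderiv ℝ h (x + t • z) (e i) := by
    intro i
    refine mv_integrable (by fun_prop) fun z hz => ?_
    rw [mv_Phi_zero hz, zero_mul]
  simp only [h1]
  have h7 : ∫ z, ∑ i, -(fderiv ℝ (mvPhi n) z (e i) * fderiv ℝ h (x + t • z) (e i)) =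
      ∑ i, ∫ z, -(fderiv ℝ (mvPhi n) z (e i) * fderiv ℝ h (x + t • z) (e i)) :=
    integral_finsetSum _ fun i _ => (hi i).neg
  rw [h7]
  have h4 : ∀ i, ∫ z, -(fderiv ℝ (mvPhi n) z (e i) * fderiv ℝ h (x + t • z) (e i)) =
      ∫ z, mvPhi n z * (t * fderiv ℝ (fderiv ℝ h) (x + t • z) (e i) (e i)) := by
    intro i
    rw [integral_neg, ← integral_mul_fderiv_eq_neg_fderiv_mul_of_integrable (hi i) (hi2 i) (hi3 i)
      (fun z _ => (mv_fderiv_Phi z).1) (fun z _ => (hg i z).differentiableAt)]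
    simp only [hgd]
  simp only [h4]
  rw [← integral_finsetSum, ← integral_const_mul]
  · congr 1
    funext z
    rw [Pool.Agent.Lib.MP_2166fc_an.lap_eq, Finset.mul_sum, Finset.mul_sum]
    refine Finset.sum_congr rfl fun i _ => ?_
    ring
  · intro i _
    have := hi2 i
    simpa only [hgd] using this

end

/-- T1 (weighted mean value inequality). -/
theorem mean_value {h : Sp n → ℝ} (hh : ContDiff ℝ 2 h) {x : Sp n} {r L : ℝ} (hr : 0 < r)
    (hL : 0 ≤ L) (h0 : ∀ y ∈ closedBall x r, 0 ≤ h y)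
    (hΔ : ∀ y ∈ closedBall x r, |Δ h y| ≤ L * h y) :
    Real.exp (-(L * r ^ 2)) * ((∫ z, Psi n z) * h x) ≤ ∫ z, Psi n z * h (x + r • z) ∧
      ∫ z, Psi n z * h (x + r • z) ≤ Real.exp (L * r ^ 2) * ((∫ z, Psi n z) * h x) := by
  set M : ℝ → ℝ := fun t => ∫ z, Psi n z * h (x + t • z) with hM
  have hP := mv_Psi_cont (n := n)
  have hQ := mv_Phi_cont (n := n)
  have hlc := mv_cont_lap hh
  have hh0 : Continuous h := hh.continuous
  have hd : ∀ t, HasDerivAt M (t * ∫ z, mvPhi n z * Δ h (x + t • z)) t := by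
    intro t
    rw [← mv_parts hh x t]
    exact mv_deriv hh x t
  have hb : ∀ t ∈ Icc 0 r, |t * ∫ z, mvPhi n z * Δ h (x + t • z)| ≤ L * r * M t := by
    intro t ht
    have hmem : ∀ z : Sp n, ‖z‖ ≤ 1 → x + t • z ∈ closedBall x r := by
      intro z hz
      rw [mem_closedBall, dist_eq_norm, add_sub_cancel_left, norm_smul, Real.norm_eq_abs,
        abs_of_nonneg ht.1]
      calc t * ‖z‖ ≤ r * 1 := mul_le_mul ht.2 hz (norm_nonneg _) hr.le
        _ = r := mul_one r
    have h1 : |∫ z, mvPhi n z * Δ h (x + t • z)| ≤ L * M t := by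
      rw [hM]
      simp only
      rw [← integral_const_mul, ← Real.norm_eq_abs]
      refine (norm_integral_le_integral_norm _).trans ?_
      refine integral_mono ?_ ?_ ?_
      · refine mv_integrable (by fun_prop) fun z hz => ?_
        rw [mv_Phi_zero hz, zero_mul, norm_zero]
      · refine mv_integrable (by fun_prop) fun z hz => ?_
        rw [mv_Psi_zero hz, zero_mul, mul_zero]
      · intro z
        simp only
        rcases lt_or_ge 1 ‖z‖ with hz | hz
        · rw [mv_Phi_zero hz, mv_Psi_zero hz]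
          simp
        · rw [norm_mul, Real.norm_of_nonneg (mv_Phi_nonneg z), Real.norm_eq_abs]
          have h2 := hΔ _ (hmem z hz)
          have h3 := h0 _ (hmem z hz)
          calc mvPhi n z * |Δ h (x + t • z)| ≤ Psi n z * (L * h (x + t • z)) :=
                mul_le_mul (mv_Phi_le z) h2 (abs_nonneg _) (mv_Psi_nonneg z)
            _ = L * (Psi n z * h (x + t • z)) := by ring
    have h5 : 0 ≤ L * M t := (abs_nonneg _).trans h1
    rw [abs_mul, abs_of_nonneg ht.1]
    calc t * |∫ z, mvPhi n z * Δ h (x + t • z)| ≤ r * (L * M t) :=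
          mul_le_mul ht.2 h1 (abs_nonneg _) hr.le
      _ = L * r * M t := by ring
  have hM0 : M 0 = (∫ z, Psi n z) * h x := by
    rw [hM]
    simp only [zero_smul, add_zero]
    rw [integral_mul_const]
  have hanti : AntitoneOn (fun t => M t * Real.exp (-(L * r * t))) (Icc 0 r) := by
    have hd1 : ∀ t, HasDerivAt (fun t => M t * Real.exp (-(L * r * t)))
        ((t * ∫ z, mvPhi n z * Δ h (x + t • z)) * Real.exp (-(L * r * t)) +
          M t * (Real.exp (-(L * r * t)) * (-(L * r)))) t := by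
      intro t
      have h1 : HasDerivAt (fun t : ℝ => -(L * r * t)) (-(L * r)) t := by
        simpa using (hasDerivAt_id t).const_mul (-(L * r))
      exact (hd t).mul h1.exp
    refine antitoneOn_of_deriv_nonpos (convex_Icc 0 r)
      (fun t _ => (hd1 t).continuousAt.continuousWithinAt)
      (fun t _ => (hd1 t).differentiableAt.differentiableWithinAt) ?_
    intro t ht
    rw [(hd1 t).deriv]
    rw [interior_Icc] at ht
    have h1 := (abs_le.1 (hb t ⟨ht.1.le, ht.2.le⟩)).2
    have h2 := Real.exp_pos (-(L * r * t))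
    nlinarith
  have hmono : MonotoneOn (fun t => M t * Real.exp (L * r * t)) (Icc 0 r) := by
    have hd1 : ∀ t, HasDerivAt (fun t => M t * Real.exp (L * r * t))
        ((t * ∫ z, mvPhi n z * Δ h (x + t • z)) * Real.exp (L * r * t) +
          M t * (Real.exp (L * r * t) * (L * r))) t := by
      intro t
      have h1 : HasDerivAt (fun t : ℝ => L * r * t) (L * r) t := by
        simpa using (hasDerivAt_id t).const_mul (L * r)
      exact (hd t).mul h1.exp
    refine monotoneOn_of_deriv_nonneg (convex_Icc 0 r)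
      (fun t _ => (hd1 t).continuousAt.continuousWithinAt)
      (fun t _ => (hd1 t).differentiableAt.differentiableWithinAt) ?_
    intro t ht
    rw [(hd1 t).deriv]
    rw [interior_Icc] at ht
    have h1 := (abs_le.1 (hb t ⟨ht.1.le, ht.2.le⟩)).1
    have h2 := Real.exp_pos (L * r * t)
    nlinarith
  have hr0 : (0 : ℝ) ∈ Icc 0 r := ⟨le_rfl, hr.le⟩
  have hrr : r ∈ Icc 0 r := ⟨hr.le, le_rfl⟩
  have h1 := hanti hr0 hrr hr.le
  have h2 := hmono hr0 hrr hr.le
  simp only [mul_zero, neg_zero, Real.exp_zero, mul_one] at h1 h2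
  have h3 : L * r * r = L * r ^ 2 := by ring
  rw [h3] at h1 h2
  have h4 : Real.exp (-(L * r ^ 2)) * Real.exp (L * r ^ 2) = 1 := by
    rw [← Real.exp_add]
    simp
  have h5 := Real.exp_pos (-(L * r ^ 2))
  have h6 := Real.exp_pos (L * r ^ 2)
  rw [hM0] at h1 h2
  constructor
  · calc Real.exp (-(L * r ^ 2)) * ((∫ z, Psi n z) * h x) ≤
          Real.exp (-(L * r ^ 2)) * (M r * Real.exp (L * r ^ 2)) :=
          mul_le_mul_of_nonneg_left h2 h5.le
      _ = M r * (Real.exp (-(L * r ^ 2)) * Real.exp (L * r ^ 2)) := by ring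
      _ = M r := by rw [h4, mul_one]
  · calc M r = M r * (Real.exp (-(L * r ^ 2)) * Real.exp (L * r ^ 2)) := by rw [h4, mul_one]
      _ = Real.exp (L * r ^ 2) * (M r * Real.exp (-(L * r ^ 2))) := by ring
      _ ≤ Real.exp (L * r ^ 2) * ((∫ z, Psi n z) * h x) := mul_le_mul_of_nonneg_left h1 h6.le

end Pool.Agent.Lib.MP_9a9339_an
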