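import Mathlib
import Pool.Agent.Lib.MP_9a9339_an.Core
import Pool.Agent.Lib.MP_9a9339_an.MeanValue

set_option autoImplicit false

open Set Filter Topology Metric InnerProductSpace Laplacian MeasureTheory

namespace Pool.Agent.Lib.MP_9a9339_an

open Pool.Agent.Lib.MP_2166fc_an (Sp)

variable {n : ℕ}

/-! ### elementary facts on `Psi` -/

lemma mod_Psi_cont (n : ℕ) : Continuous (Psi n) := by
  unfold Psi
  fun_prop

lemma mod_Psi_nonneg (n : ℕ) (z : Sp n) : 0 ≤ Psi n z := by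
  unfold Psi
  positivity

lemma mod_Psi_zero {z : Sp n} (hz : 1 ≤ ‖z‖) : Psi n z = 0 := by
  unfold Psi
  have : 1 - ‖z‖ ^ 2 ≤ 0 := by nlinarith [norm_nonneg z]
  rw [max_eq_right this]
  norm_num

lemma mod_Psi_supp (n : ℕ) : HasCompactSupport (Psi n) := by
  apply HasCompactSupport.intro (isCompact_closedBall (0 : Sp n) 1)
  intro z hz
  apply mod_Psi_zero
  rw [mem_closedBall_zero_iff, not_le] at hz
  exact hz.le

lemma mod_Psi_pos (n : ℕ) : 0 < ∫ z, Psi n z := by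
  apply (mod_Psi_cont n).integral_pos_of_hasCompactSupport_nonneg_nonzero (mod_Psi_supp n)
    (mod_Psi_nonneg n) (x := 0)
  unfold Psi
  simp

/-- the profile -/
lemma mod_p_lip (a b : ℝ) (ha : 0 ≤ a) (hb : 0 ≤ b) :
    |(max (1 - a ^ 2) 0) ^ 2 - (max (1 - b ^ 2) 0) ^ 2| ≤ 4 * |a - b| := by
  wlog hab : a ≤ b with H
  · rw [abs_sub_comm, abs_sub_comm a b]
    exact H b a hb ha (not_le.1 hab).le
  rw [abs_sub_comm a b, abs_of_nonneg (sub_nonneg.2 hab)]
  rcases le_total 1 a with h1 | h1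
  · have h2 : 1 - a ^ 2 ≤ 0 := by nlinarith
    have h3 : 1 - b ^ 2 ≤ 0 := by nlinarith
    rw [max_eq_right h2, max_eq_right h3]
    simp only [sub_self, abs_zero]
    linarith
  · have h2 : 0 ≤ 1 - a ^ 2 := by nlinarith
    rw [max_eq_left h2]
    rcases le_total 1 b with h4 | h4
    · have h5 : 1 - b ^ 2 ≤ 0 := by nlinarith
      rw [max_eq_right h5, zero_pow two_ne_zero, sub_zero, abs_of_nonneg (by positivity)]
      have h6 : (1 - a ^ 2) ≤ 2 * (b - a) := by nlinarith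
      have h7 : 1 - a ^ 2 ≤ 1 := by nlinarith
      nlinarith
    · have h5 : 0 ≤ 1 - b ^ 2 := by nlinarith
      rw [max_eq_left h5]
      have h6 : (1 - a ^ 2) ^ 2 - (1 - b ^ 2) ^ 2 = (b - a) * ((b + a) * (2 - a ^ 2 - b ^ 2)) := by
        ring
      rw [h6, abs_of_nonneg]
      · have h7 : (b + a) * (2 - a ^ 2 - b ^ 2) ≤ 2 * 2 := by
          apply mul_le_mul <;> nlinarith
        nlinarith
      · apply mul_nonneg (by linarith)
        apply mul_nonneg (by linarith)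
        linarith

lemma mod_Psi_lip (z w : Sp n) : |Psi n (z - w) - Psi n z| ≤ 4 * ‖w‖ := by
  unfold Psi
  refine (mod_p_lip _ _ (norm_nonneg _) (norm_nonneg _)).trans ?_
  have h := abs_norm_sub_norm_le (z - w) z
  rw [sub_sub_cancel_left, norm_neg] at h
  linarith

lemma mod_Psi_half {z : Sp n} (hz : ‖z‖ ≤ 3 / 2) : 1 / 6 ≤ Psi n ((1 / 2 : ℝ) • z) := by
  unfold Psi
  rw [norm_smul, Real.norm_of_nonneg (by norm_num : (0:ℝ) ≤ 1 / 2)]
  have h0 := norm_nonneg z
  have h1 : 7 / 16 ≤ 1 - (1 / 2 * ‖z‖) ^ 2 := by nlinarith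
  have h2 : 7 / 16 ≤ max (1 - (1 / 2 * ‖z‖) ^ 2) 0 := le_max_of_le_left h1
  nlinarith

/-! ### the cut-off -/

lemma mod_cutoff {h : Sp n → ℝ} {x : Sp n} {R : ℝ} (hR : 0 < R)
    (hh : ContDiffOn ℝ 2 h (ball x R)) :
    ∃ g : Sp n → ℝ, ContDiff ℝ 2 g ∧ ∀ y ∈ ball x (R / 2), g =ᶠ[𝓝 y] h := by
  let χ : ContDiffBump x := ⟨R / 2, 3 * R / 4, by positivity, by linarith⟩
  refine ⟨fun y => χ y * h y, ?_, ?_⟩
  · rw [contDiff_iff_contDiffAt]
    intro y
    by_cases hy : y ∈ ball x R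
    · exact χ.contDiffAt.mul (hh.contDiffAt (isOpen_ball.mem_nhds hy))
    · have h1 : y ∉ tsupport χ := by
        rw [χ.tsupport_eq]
        intro hy'
        apply hy
        rw [mem_ball]
        have h2 : dist y x ≤ 3 * R / 4 := hy'
        linarith
      have h2 : (fun y => χ y * h y) =ᶠ[𝓝 y] fun _ => 0 := by
        filter_upwards [notMem_tsupport_iff_eventuallyEq.1 h1] with z hz
        rw [hz]
        simp
      exact contDiffAt_const.congr_of_eventuallyEq h2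
  · intro y hy
    filter_upwards [isOpen_ball.mem_nhds hy] with z hz
    rw [χ.one_of_mem_closedBall (ball_subset_closedBall hz), one_mul]

/-! ### comparison of the weighted means -/

lemma mod_means {g : Sp n → ℝ} (hg : Continuous g) {x y : Sp n} {ρ : ℝ} (hρ : 0 < ρ)
    (h0 : ∀ z ∈ closedBall x (2 * ρ), 0 ≤ g z) (hy : ‖y - x‖ ≤ ρ / 2) :
    |(∫ z, Psi n z * g (y + ρ • z)) - ∫ z, Psi n z * g (x + ρ • z)| ≤
      24 * (‖y - x‖ / ρ) * (2 ^ n * ∫ z, Psi n z * g (x + (2 * ρ) • z)) := by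
  set w : Sp n := ρ⁻¹ • (y - x) with hw
  have hwn : ‖w‖ = ‖y - x‖ / ρ := by
    rw [hw, norm_smul, norm_inv, Real.norm_of_nonneg hρ.le]
    field_simp
  have hw2 : ‖w‖ ≤ 1 / 2 := by
    rw [hwn, div_le_iff₀ hρ]
    linarith
  have hρw : ρ • w = y - x := by
    rw [hw, smul_smul, mul_inv_cancel₀ hρ.ne', one_smul]
  -- translation
  have e1 : ∫ z, Psi n z * g (y + ρ • z) = ∫ z, Psi n (z - w) * g (x + ρ • z) := by
    rw [← integral_sub_right_eq_self (fun z => Psi n z * g (y + ρ • z)) w]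
    congr 1
    funext z
    have : y + ρ • (z - w) = x + ρ • z := by
      rw [smul_sub, hρw]
      abel
    rw [this]
  -- dilation
  have e2 : ∫ z, Psi n ((1 / 2 : ℝ) • z) * g (x + ρ • z) =
      2 ^ n * ∫ z, Psi n z * g (x + (2 * ρ) • z) := by
    have h := Measure.integral_comp_smul (volume : Measure (Sp n))
      (fun z => Psi n z * g (x + (2 * ρ) • z)) (1 / 2 : ℝ)
    have h2 : ∀ z : Sp n, (2 * ρ) • ((1 / 2 : ℝ) • z) = ρ • z := by
      intro z
      rw [smul_smul]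
      congr 1
      ring
    simp only [h2] at h
    rw [h, finrank_euclideanSpace_fin, smul_eq_mul]
    congr 1
    rw [one_div, inv_pow, inv_inv, abs_of_pos (by positivity)]
  have c1 : Continuous fun z : Sp n => g (x + ρ • z) := by fun_prop
  have i1 : Integrable fun z : Sp n => Psi n (z - w) * g (x + ρ • z) := by
    apply Continuous.integrable_of_hasCompactSupport
    · exact ((mod_Psi_cont n).comp (by fun_prop)).mul c1
    · apply HasCompactSupport.intro (isCompact_closedBall (0 : Sp n) 2)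
      intro z hz
      rw [mem_closedBall_zero_iff, not_le] at hz
      have h3 : 1 ≤ ‖z - w‖ := by
        have := norm_sub_norm_le z w
        linarith
      rw [mod_Psi_zero h3, zero_mul]
  have i2 : Integrable fun z : Sp n => Psi n z * g (x + ρ • z) := by
    apply Continuous.integrable_of_hasCompactSupport
    · exact (mod_Psi_cont n).mul c1
    · exact (mod_Psi_supp n).mul_right
  have i3 : Integrable fun z : Sp n => Psi n ((1 / 2 : ℝ) • z) * g (x + ρ • z) := by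
    apply Continuous.integrable_of_hasCompactSupport
    · exact ((mod_Psi_cont n).comp (by fun_prop)).mul c1
    · apply HasCompactSupport.intro (isCompact_closedBall (0 : Sp n) 2)
      intro z hz
      rw [mem_closedBall_zero_iff, not_le] at hz
      have h3 : 1 ≤ ‖(1 / 2 : ℝ) • z‖ := by
        rw [norm_smul, Real.norm_of_nonneg (by norm_num : (0:ℝ) ≤ 1 / 2)]
        linarith
      rw [mod_Psi_zero h3, zero_mul]
  rw [e1, ← integral_sub i1 i2, ← e2, ← integral_const_mul, ← Real.norm_eq_abs]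
  apply norm_integral_le_of_norm_le (i3.const_mul _)
  apply Eventually.of_forall
  intro z
  show ‖Psi n (z - w) * g (x + ρ • z) - Psi n z * g (x + ρ • z)‖ ≤
    24 * (‖y - x‖ / ρ) * (Psi n ((1 / 2 : ℝ) • z) * g (x + ρ • z))
  rw [← sub_mul, norm_mul, Real.norm_eq_abs, Real.norm_eq_abs, ← hwn]
  rcases le_total ‖z‖ 2 with hz | hz
  · have hg0 : 0 ≤ g (x + ρ • z) := by
      apply h0
      rw [mem_closedBall, dist_eq_norm, add_sub_cancel_left, norm_smul,
        Real.norm_of_nonneg hρ.le]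
      nlinarith
    rw [abs_of_nonneg hg0]
    rcases le_total ‖z‖ (3 / 2) with hz2 | hz2
    · have h3 := mod_Psi_lip z w
      have h4 := mod_Psi_half hz2
      have h5 : |Psi n (z - w) - Psi n z| ≤ 24 * ‖w‖ * Psi n ((1 / 2 : ℝ) • z) := by
        have := norm_nonneg w
        nlinarith
      calc |Psi n (z - w) - Psi n z| * g (x + ρ • z)
          ≤ (24 * ‖w‖ * Psi n ((1 / 2 : ℝ) • z)) * g (x + ρ • z) :=
            mul_le_mul_of_nonneg_right h5 hg0
        _ = _ := by ring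
    · have h3 : 1 ≤ ‖z - w‖ := by
        have := norm_sub_norm_le z w
        linarith
      rw [mod_Psi_zero h3, mod_Psi_zero (by linarith : 1 ≤ ‖z‖)]
      simp only [sub_self, abs_zero, zero_mul]
      have := mod_Psi_nonneg n ((1 / 2 : ℝ) • z)
      positivity
  · have h3 : 1 ≤ ‖z - w‖ := by
      have := norm_sub_norm_le z w
      linarith
    have h4 : 1 ≤ ‖(1 / 2 : ℝ) • z‖ := by
      rw [norm_smul, Real.norm_of_nonneg (by norm_num : (0:ℝ) ≤ 1 / 2)]
      linarith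
    rw [mod_Psi_zero h3, mod_Psi_zero (by linarith : 1 ≤ ‖z‖), mod_Psi_zero h4]
    simp

lemma mod_choice {L R ε : ℝ} (hR : 0 < R) (hε : 0 < ε) :
    ∃ ρ : ℝ, 0 < ρ ∧ ρ < R / 8 ∧ Real.exp (L * ρ ^ 2) ^ 2 ≤ 1 + ε / 2 ∧
      Real.exp (L * ρ ^ 2) ^ 2 ≤ 2 := by
  have hc : Tendsto (fun ρ : ℝ => Real.exp (L * ρ ^ 2) ^ 2) (𝓝[>] 0) (𝓝 1) := by
    have h1 : Continuous fun ρ : ℝ => Real.exp (L * ρ ^ 2) ^ 2 := by fun_prop
    have h2 := h1.tendsto 0
    simp only [ne_eq, OfNat.ofNat_ne_zero, not_false_eq_true, zero_pow, mul_zero, Real.exp_zero,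
      one_pow] at h2
    exact h2.mono_left nhdsWithin_le_nhds
  have h3 := hc.eventually_lt_const (show (1:ℝ) < 1 + ε / 2 by linarith)
  have h4 := hc.eventually_lt_const (show (1:ℝ) < 2 by norm_num)
  have h5 : ∀ᶠ ρ : ℝ in 𝓝[>] 0, ρ ∈ Ioo (0:ℝ) (R / 8) :=
    Ioo_mem_nhdsGT (by positivity)
  obtain ⟨ρ, a, b, c⟩ := (h3.and (h4.and h5)).exists
  exact ⟨ρ, c.1, c.2, a.le, b.le⟩

/-- T2 (relative modulus of continuity). -/
theorem modulus (n : ℕ) {L R ε : ℝ} (hL : 0 ≤ L) (hR : 0 < R) (hε : 0 < ε) :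
    ∃ δ > 0, δ < R ∧ ∀ (h : Sp n → ℝ) (x : Sp n), ContDiffOn ℝ 2 h (ball x R) →
      (∀ y ∈ ball x R, 0 ≤ h y) → (∀ y ∈ ball x R, |Δ h y| ≤ L * h y) →
      ∀ y ∈ closedBall x δ, |h y - h x| ≤ ε * h x := by
  obtain ⟨ρ, hρ, hρR, hE1, hE2⟩ := mod_choice (L := L) hR hε
  have h2n : (0:ℝ) < 2 ^ n := by positivity
  refine ⟨min (ρ / 2) (ρ * ε / (384 * 2 ^ n)), by positivity, ?_, ?_⟩
  · exact (min_le_left _ _).trans_lt (by linarith)
  intro h x hh h0 hΔ y hy
  have hyx : ‖y - x‖ ≤ min (ρ / 2) (ρ * ε / (384 * 2 ^ n)) := by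
    rw [← dist_eq_norm]
    exact hy
  have hy1 : ‖y - x‖ ≤ ρ / 2 := hyx.trans (min_le_left _ _)
  have hy2 : ‖y - x‖ ≤ ρ * ε / (384 * 2 ^ n) := hyx.trans (min_le_right _ _)
  obtain ⟨g, hg, hgh⟩ := mod_cutoff hR hh
  -- the ball facts
  have hsub : ∀ z ∈ ball x (R / 2), z ∈ ball x R := fun z hz => ball_subset_ball (by linarith) hz
  have hgh' : ∀ z ∈ ball x (R / 2), g z = h z := fun z hz => (hgh z hz).eq_of_nhds
  have g0 : ∀ z ∈ ball x (R / 2), 0 ≤ g z := by
    intro z hz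
    rw [hgh' z hz]
    exact h0 z (hsub z hz)
  have gΔ : ∀ z ∈ ball x (R / 2), |Δ g z| ≤ L * g z := by
    intro z hz
    rw [hgh' z hz, (laplacian_congr_nhds (hgh z hz)).eq_of_nhds]
    exact hΔ z (hsub z hz)
  have hx : x ∈ ball x (R / 2) := mem_ball_self (by positivity)
  have hyB : y ∈ ball x (R / 2) := by
    rw [mem_ball, dist_eq_norm]
    linarith
  rw [← hgh' x hx, ← hgh' y hyB]
  set A : ℝ := ∫ z, Psi n z with hA
  have hApos : 0 < A := mod_Psi_pos n
  have gx0 := g0 x hx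
  have sub1 : ∀ z ∈ closedBall y ρ, z ∈ ball x (R / 2) := by
    intro z hz
    rw [mem_ball]
    have h1 : dist z y ≤ ρ := hz
    have h2 : dist y x ≤ ρ / 2 := by rw [dist_eq_norm]; exact hy1
    have := dist_triangle z y x
    linarith
  have sub2 : ∀ z ∈ closedBall x ρ, z ∈ ball x (R / 2) := by
    intro z hz
    rw [mem_ball]
    have h1 : dist z x ≤ ρ := hz
    linarith
  have sub3 : ∀ z ∈ closedBall x (2 * ρ), z ∈ ball x (R / 2) := by
    intro z hz
    rw [mem_ball]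
    have h1 : dist z x ≤ 2 * ρ := hz
    linarith
  obtain ⟨my1, my2⟩ := mean_value hg (x := y) hρ hL (fun z hz => g0 z (sub1 z hz))
    (fun z hz => gΔ z (sub1 z hz))
  obtain ⟨mx1, mx2⟩ := mean_value hg (x := x) hρ hL (fun z hz => g0 z (sub2 z hz))
    (fun z hz => gΔ z (sub2 z hz))
  obtain ⟨-, mz2⟩ := mean_value hg (x := x) (show (0:ℝ) < 2 * ρ by positivity) hL
    (fun z hz => g0 z (sub3 z hz)) (fun z hz => gΔ z (sub3 z hz))
  have key := mod_means hg.continuous hρ (fun z hz => g0 z (sub3 z hz)) hy1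
  set E : ℝ := Real.exp (L * ρ ^ 2) with hE
  have hEone : 1 ≤ E := Real.one_le_exp (by positivity)
  have hEinv : Real.exp (-(L * ρ ^ 2)) = E⁻¹ := Real.exp_neg _
  have hE4 : Real.exp (L * (2 * ρ) ^ 2) = E ^ 4 := by
    rw [hE, ← Real.exp_nat_mul]
    congr 1
    push_cast
    ring
  rw [hEinv] at my1 mx1
  rw [hE4] at mz2
  set My := ∫ z, Psi n z * g (y + ρ • z)
  set Mx := ∫ z, Psi n z * g (x + ρ • z)
  set Mz := ∫ z, Psi n z * g (x + (2 * ρ) • z)
  set Q : ℝ := 24 * (‖y - x‖ / ρ) * 2 ^ n with hQ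
  have hQ0 : 0 ≤ Q := by positivity
  have hQ1 : 16 * Q ≤ ε := by
    have h1 : ‖y - x‖ * (384 * 2 ^ n) ≤ ρ * ε := by
      rwa [le_div_iff₀ (by positivity)] at hy2
    have h2 : 16 * Q = ‖y - x‖ * (384 * 2 ^ n) / ρ := by
      rw [hQ]
      field_simp
      ring
    rw [h2, div_le_iff₀ hρ]
    linarith
  have key2 : |My - Mx| ≤ Q * (E ^ 4 * (A * g x)) := by
    refine key.trans ?_
    rw [← mul_assoc, ← hQ]
    exact mul_le_mul_of_nonneg_left mz2 hQ0
  have key3 := abs_le.1 key2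
  have hEpos : 0 < E := by positivity
  have hE5 : E ^ 5 ≤ 8 := by
    have : E ^ 5 ≤ E ^ 6 := pow_le_pow_right₀ hEone (by norm_num)
    have h6 : E ^ 6 = (E ^ 2) ^ 3 := by ring
    have h7 : (E ^ 2) ^ 3 ≤ 2 ^ 3 := pow_le_pow_left₀ (by positivity) hE2 3
    linarith
  have hEinvE : E⁻¹ * E = 1 := inv_mul_cancel₀ hEpos.ne'
  rw [abs_le]
  constructor
  · -- lower bound
    have h1 : My ≤ E * (A * g y) := my2
    have h2 : E⁻¹ * (A * g x) - Q * (E ^ 4 * (A * g x)) ≤ E * (A * g y) := by linarith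
    have h3 : A * g x - Q * (E ^ 5 * (A * g x)) ≤ E ^ 2 * (A * g y) := by
      have := mul_le_mul_of_nonneg_left h2 hEpos.le
      have e : E * (E⁻¹ * (A * g x) - Q * (E ^ 4 * (A * g x))) =
          (E⁻¹ * E) * (A * g x) - Q * (E ^ 5 * (A * g x)) := by ring
      rw [e, hEinvE, one_mul] at this
      calc _ ≤ _ := this
        _ = _ := by ring
    have h4 : g x - Q * (E ^ 5 * g x) ≤ E ^ 2 * g y := by
      have : A * (g x - Q * (E ^ 5 * g x)) ≤ A * (E ^ 2 * g y) := by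
        calc _ = A * g x - Q * (E ^ 5 * (A * g x)) := by ring
          _ ≤ _ := h3
          _ = _ := by ring
      exact le_of_mul_le_mul_left this hApos
    -- `g y ≥ (1 - ε) g x`
    by_contra hcon
    push Not at hcon
    have gy0 := g0 y hyB
    have h5 : g y < (1 - ε) * g x := by linarith
    have h6 : Q * (E ^ 5 * g x) ≤ ε / 2 * g x := by
      have : Q * E ^ 5 ≤ ε / 2 := by
        have := mul_le_mul_of_nonneg_left hE5 hQ0
        linarith
      calc _ = (Q * E ^ 5) * g x := by ring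
        _ ≤ _ := mul_le_mul_of_nonneg_right this gx0
    have h7 : E ^ 2 * g y ≤ (1 + ε / 2) * g y := mul_le_mul_of_nonneg_right hE1 gy0
    have h8 : (1 + ε / 2) * g y ≤ (1 + ε / 2) * ((1 - ε) * g x) :=
      mul_le_mul_of_nonneg_left h5.le (by positivity)
    have gxpos : 0 < g x := by
      rcases gx0.eq_or_lt with h | h
      · rw [← h] at h5
        linarith
      · exact h
    have h9 : (1 - ε / 2) * g x ≤ (1 + ε / 2) * ((1 - ε) * g x) := by linarith
    have h10 : 0 < ε * ε * g x := by positivity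
    have h11 : (1 + ε / 2) * ((1 - ε) * g x) = (1 - ε / 2) * g x - ε * ε * g x / 2 := by ring
    linarith
  · -- upper bound
    have h1 : E⁻¹ * (A * g y) ≤ My := my1
    have h2 : E⁻¹ * (A * g y) ≤ E * (A * g x) + Q * (E ^ 4 * (A * g x)) := by linarith
    have h3 : A * g y ≤ E ^ 2 * (A * g x) + Q * (E ^ 5 * (A * g x)) := by
      have := mul_le_mul_of_nonneg_left h2 hEpos.le
      have e : E * (E⁻¹ * (A * g y)) = (E⁻¹ * E) * (A * g y) := by ring
      rw [e, hEinvE, one_mul] at this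
      calc _ ≤ _ := this
        _ = _ := by ring
    have h4 : g y ≤ (E ^ 2 + Q * E ^ 5) * g x := by
      have : A * g y ≤ A * ((E ^ 2 + Q * E ^ 5) * g x) := by
        calc _ ≤ _ := h3
          _ = _ := by ring
      exact le_of_mul_le_mul_left this hApos
    have h5 : E ^ 2 + Q * E ^ 5 ≤ 1 + ε := by
      have := mul_le_mul_of_nonneg_left hE5 hQ0
      linarith
    have h6 := mul_le_mul_of_nonneg_right h5 gx0
    linarith

end Pool.Agent.Lib.MP_9a9339_an
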