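import Mathlib

set_option autoImplicit false

open Set Metric InnerProductSpace Laplacian

namespace Pool.Agent.Lib.MP_9a9339_an

/-- Euclidean space of dimension `d`. -/
abbrev E (d : ℕ) := EuclideanSpace ℝ (Fin d)

/-- A reaction: `f` is of class `C^{1,γ}` on `[0,∞)` (there is a derivative `f'` on `[0,∞)`,
one-sided at `0`, which is `γ`-Hölder continuous on every bounded interval),
`f 0 = f 1 = 0`, `f < 0` on `(1,∞)` and `f'(1) < 0`. Values of `f` on negative
numbers play no role. -/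
structure IsReaction (γ : ℝ) (f : ℝ → ℝ) : Prop where
  smooth : ∃ f' : ℝ → ℝ, (∀ s ∈ Ici (0:ℝ), HasDerivWithinAt f (f' s) (Ici 0) s) ∧
    ∀ R : ℝ, ∃ C : ℝ, ∀ s ∈ Icc (0:ℝ) R, ∀ t ∈ Icc (0:ℝ) R, |f' s - f' t| ≤ C * |s - t| ^ γ
  at_zero : f 0 = 0
  at_one : f 1 = 0
  neg : ∀ s, 1 < s → f s < 0
  deriv_one : derivWithin f (Ici 0) 1 < 0

/-- A positive reaction: a reaction with `f > 0` on `(0,1)` and `f'(0^+) > 0`. -/
structure IsPositiveReaction (γ : ℝ) (f : ℝ → ℝ) : Prop extends IsReaction γ f where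
  pos : ∀ s, 0 < s → s < 1 → 0 < f s
  deriv_zero : 0 < derivWithin f (Ici 0) 0

/-- The second derivative of `g`. -/
noncomputable def secondDeriv {d : ℕ} (g : E d → ℝ) (x : E d) : E d →L[ℝ] E d →L[ℝ] ℝ :=
  fderiv ℝ (fderiv ℝ g) x

/-- `g` is of class `C^2` on the ball of radius `r` about `0`, and `g` and its first two
derivatives are bounded by `M` there. -/
def C2Bound {d : ℕ} (r M : ℝ) (g : E d → ℝ) : Prop :=
  ContDiffOn ℝ 2 g (ball 0 r) ∧
    ∀ x ∈ ball (0 : E d) r, |g x| ≤ M ∧ ‖fderiv ℝ g x‖ ≤ M ∧ ‖secondDeriv g x‖ ≤ M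

/-- The second derivative of `g` is `γ`-Hölder continuous with constant `M` on the ball of
radius `r` about `0`. -/
def HolderBound {d : ℕ} (γ r M : ℝ) (g : E d → ℝ) : Prop :=
  ∀ x ∈ ball (0 : E d) r, ∀ y ∈ ball (0 : E d) r,
    ‖secondDeriv g x - secondDeriv g y‖ ≤ M * ‖x - y‖ ^ γ

/-- Near `p` (in the ball `B(p,r)`) the set `Ω` is the strict epigraph, in the direction of the
unit vector `e`, of a function `g` of the component orthogonal to `e` (that is, `g` is invariant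
under translations in the direction `e`). -/
def IsLocalEpigraph {d : ℕ} (Ω : Set (E d)) (p : E d) (r : ℝ) (e : E d) (g : E d → ℝ) : Prop :=
  ‖e‖ = 1 ∧ (∀ x : E d, ∀ t : ℝ, g (x + t • e) = g x) ∧
    ∀ x ∈ ball p r, (x ∈ Ω ↔ g (x - p) < inner ℝ e (x - p))

/-- `Ω` is uniformly of class `C^{2,γ}`: there are a radius `r > 0` and a bound `M` such that for
every boundary point `p`, in the ball `B(p,r)`, the set `Ω` is the strict epigraph in some unit
direction `e` of a function `g` of the component orthogonal to `e`, of class `C^{2,γ}` with norm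
controlled by `M` on the ball of radius `r`. -/
def UniformlyC2 {d : ℕ} (γ : ℝ) (Ω : Set (E d)) : Prop :=
  ∃ r : ℝ, 0 < r ∧ ∃ M : ℝ, ∀ p ∈ frontier Ω, ∃ (e : E d) (g : E d → ℝ),
    IsLocalEpigraph Ω p r e g ∧ C2Bound r M g ∧ HolderBound γ r M g

/-- A domain: nonempty, open, connected and uniformly of class `C^{2,γ}`. -/
structure IsUniformDomain {d : ℕ} (γ : ℝ) (Ω : Set (E d)) : Prop where
  isOpen : IsOpen Ω
  isConnected : IsConnected Ω
  uniformlyC2 : UniformlyC2 γ Ω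

/-- `K` is star-shaped about `c`: the segment `[y,c]` lies in `K` for every `y ∈ K`. -/
def StarShapedAbout {d : ℕ} (K : Set (E d)) (c : E d) : Prop :=
  ∀ y ∈ K, segment ℝ y c ⊆ K

/-- `Ω` is strongly exterior-star: its complement is star-shaped about every point of some
nonempty open set. -/
def StronglyExteriorStar {d : ℕ} (Ω : Set (E d)) : Prop :=
  ∃ U : Set (E d), IsOpen U ∧ U.Nonempty ∧ ∀ c ∈ U, StarShapedAbout Ωᶜ c

/-- Positive bounded classical solutions of `-Δ u = f(u)` in `Ω`, `u = 0` on the boundary. -/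
structure IsPositiveBoundedSolution {d : ℕ} (Ω : Set (E d)) (f : ℝ → ℝ) (u : E d → ℝ) : Prop where
  regular : ContDiffOn ℝ 2 u Ω
  continuousOn : ContinuousOn u (closure Ω)
  eq : ∀ x ∈ Ω, -(Δ u x) = f (u x)
  boundary : ∀ x ∈ frontier Ω, u x = 0
  pos : ∀ x ∈ Ω, 0 < u x
  bounded : ∃ B : ℝ, ∀ x ∈ Ω, u x ≤ B

end Pool.Agent.Lib.MP_9a9339_an
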