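import Mathlib
import Pool.Agent.Lib.MP_9a9339_an.Core

set_option autoImplicit false

open Set Filter Topology Metric InnerProductSpace Laplacian MeasureTheory

namespace Pool.Agent.Lib.MP_9a9339_an

open Pool.Agent.Lib.MP_2166fc_an (Sp lap_radial lap_nonneg_of_isLocalMin)

variable {n : ℕ}

/-- The Laplacian of `(1 - |y - x|² / S)²`. -/
lemma hair_lap (x y : Sp n) (S : ℝ) :
    Δ (fun z : Sp n => ((1 - ‖z - x‖ ^ 2 / S) ^ 2 : ℝ)) y =
      4 * ‖y - x‖ ^ 2 * (2 / S ^ 2) + 2 * n * (-(2 / S) * (1 - ‖y - x‖ ^ 2 / S)) := by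
  refine lap_radial (Ψ := fun q => (1 - q / S) ^ 2) (Ψ1 := fun q => -(2 / S) * (1 - q / S))
    (b := 2 / S ^ 2) (x0 := x) (x := y) ?_ ?_
  · refine Eventually.of_forall fun q => ?_
    have h1 : HasDerivAt (fun q : ℝ => 1 - q / S) (-(1 / S)) q := by
      simpa using ((hasDerivAt_id q).div_const S).const_sub 1
    have h2 := h1.pow 2
    refine h2.congr_deriv ?_
    push_cast
    ring
  · have h1 : HasDerivAt (fun q : ℝ => 1 - q / S) (-(1 / S)) (‖y - x‖ ^ 2) := by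
      simpa using ((hasDerivAt_id (‖y - x‖ ^ 2)).div_const S).const_sub 1
    have h2 := h1.const_mul (-(2 / S))
    refine h2.congr_deriv ?_
    ring

/-- T5 (hair trigger). -/
theorem hair_trigger (n : ℕ) {f : ℝ → ℝ} {c L : ℝ} (hf : React f c L) :
    ∃ R > 0, ∀ (Ω : Set (Sp n)) (u : Sp n → ℝ) (x : Sp n), IsOpen Ω → Sol Ω f u →
      closedBall x R ⊆ Ω → 1 / 2 ≤ u x := by
  have hc := hf.c_pos
  have hsc : 0 < Real.sqrt c := Real.sqrt_pos.mpr hc
  set R : ℝ := (n + 3) / Real.sqrt c with hR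
  have hRpos : 0 < R := by positivity
  have hR2 : R ^ 2 * c = (n + 3) ^ 2 := by
    rw [hR, div_pow, Real.sq_sqrt hc.le]
    field_simp
  refine ⟨R, hRpos, ?_⟩
  intro Ω u x hΩ hu hsub
  by_contra hlt
  push Not at hlt
  set φ : Sp n → ℝ := fun z => (1 - ‖z - x‖ ^ 2 / R ^ 2) ^ 2 with hφ
  have hφc : ContDiff ℝ 2 φ := by
    have : ContDiff ℝ 2 (fun z : Sp n => ‖z - x‖ ^ 2) :=
      (contDiff_id.sub contDiff_const).norm_sq ℝ
    exact (contDiff_const.sub (this.div_const _)).pow 2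
  have hupos : ∀ z ∈ closedBall x R, 0 < u z := fun z hz => hu.pos z (hsub hz)
  have hx : x ∈ closedBall x R := mem_closedBall_self hRpos.le
  have hcont : ContinuousOn (fun z => φ z / u z) (closedBall x R) := by
    refine ContinuousOn.div hφc.continuous.continuousOn hu.cont.continuousOn ?_
    intro z hz
    exact (hupos z hz).ne'
  obtain ⟨y, hy, hmax⟩ := (isCompact_closedBall x R).exists_isMaxOn ⟨x, hx⟩ hcont
  have huy := hupos y hy
  set M : ℝ := φ y / u y with hM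
  have hMx : φ x / u x ≤ M := hmax hx
  have hφx : φ x = 1 := by simp [hφ]
  have hM2 : 2 < M := by
    have hux := hupos x hx
    refine lt_of_lt_of_le ?_ hMx
    rw [hφx, lt_div_iff₀ hux]
    linarith
  have hMu : M * u y = φ y := by
    rw [hM]; field_simp
  have hφy : 0 < φ y := by
    rw [← hMu]
    exact mul_pos (by linarith) huy
  -- `y` is in the open ball
  have hyR : ‖y - x‖ < R := by
    have h1 : ‖y - x‖ ≤ R := by
      rw [← dist_eq_norm]; exact mem_closedBall.mp hy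
    refine lt_of_le_of_ne h1 ?_
    intro h2
    have : φ y = 0 := by
      simp only [hφ, h2]
      rw [div_self (by positivity)]
      ring
    linarith
  have hyball : y ∈ ball x R := by
    rw [mem_ball, dist_eq_norm]; exact hyR
  have hyΩ : y ∈ Ω := hsub hy
  have huC : ContDiffAt ℝ 2 u y := (hu.smooth y hyΩ).contDiffAt (hΩ.mem_nhds hyΩ)
  have hφC : ContDiffAt ℝ 2 φ y := hφc.contDiffAt
  have hC1 : ContDiffAt ℝ 2 (M • u) y := huC.const_smul M
  have hC2 : ContDiffAt ℝ 2 ((-1 : ℝ) • φ) y := hφC.const_smul (-1 : ℝ)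
  have hlocmin : IsLocalMin (M • u + (-1 : ℝ) • φ) y := by
    have : ∀ᶠ z in 𝓝 y, z ∈ ball x R := isOpen_ball.mem_nhds hyball
    filter_upwards [this] with z hz
    have hz' : z ∈ closedBall x R := ball_subset_closedBall hz
    have h1 : φ z / u z ≤ M := hmax hz'
    rw [div_le_iff₀ (hupos z hz')] at h1
    simp only [Pi.add_apply, Pi.smul_apply, smul_eq_mul]
    linarith
  have hlap : 0 ≤ Δ (M • u + (-1 : ℝ) • φ) y := lap_nonneg_of_isLocalMin (hC1.add hC2) hlocmin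
  rw [hC1.laplacian_add hC2, laplacian_smul M huC, laplacian_smul (-1 : ℝ) hφC] at hlap
  rw [hu.eq y hyΩ] at hlap
  have hlφ := hair_lap x y (R ^ 2)
  rw [← hφ] at hlφ
  rw [hlφ] at hlap
  set q : ℝ := ‖y - x‖ ^ 2 with hq
  have hq0 : 0 ≤ q := by positivity
  have hqR : q < R ^ 2 := by
    rw [hq]; gcongr
  set τ : ℝ := 1 - q / R ^ 2 with hτ
  have hR2pos : 0 < R ^ 2 := by positivity
  have hτ0 : 0 < τ := by
    rw [hτ, sub_pos, div_lt_one hR2pos]
    exact hqR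
  have hqτ : q = R ^ 2 * (1 - τ) := by
    rw [hτ]; field_simp; ring
  have hφyτ : φ y = τ ^ 2 := rfl
  have hτ1 : τ ≤ 1 := by
    rw [hτ]
    have : 0 ≤ q / R ^ 2 := by positivity
    linarith
  have hu2 : u y < 1 / 2 := by
    have h1 : φ y ≤ 1 := by
      rw [hφyτ]; nlinarith
    nlinarith
  have hfy : c / 2 * u y ≤ f (u y) := by
    have h1 := hf.lower (u y) (hu.mem_Icc y)
    nlinarith [mul_pos hc huy]
  have h3 : c / 2 * τ ^ 2 ≤ M * f (u y) := by
    rw [← hφyτ, ← hMu]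
    nlinarith
  have h4 : 4 * q * (2 / (R ^ 2) ^ 2) = 8 * (1 - τ) / R ^ 2 := by
    rw [hqτ]; field_simp; ring
  have hkey : 0 ≤ R ^ 2 * (M * (-f (u y)) + -1 * (4 * q * (2 / (R ^ 2) ^ 2) +
      2 * n * (-(2 / R ^ 2) * τ))) := by
    refine mul_nonneg hR2pos.le ?_
    rw [smul_eq_mul, smul_eq_mul] at hlap
    exact hlap
  rw [h4] at hkey
  have h5 : R ^ 2 * (M * (-f (u y)) + -1 * (8 * (1 - τ) / R ^ 2 + 2 * n * (-(2 / R ^ 2) * τ))) =
      -(R ^ 2 * (M * f (u y))) - 8 * (1 - τ) + 4 * n * τ := by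
    field_simp
    ring
  rw [h5] at hkey
  have h6 : (n + 3 : ℝ) ^ 2 / 2 * τ ^ 2 ≤ R ^ 2 * (M * f (u y)) := by
    rw [← hR2]
    nlinarith
  have h7 : (0 : ℝ) ≤ n := Nat.cast_nonneg n
  nlinarith [sq_nonneg ((n + 3 : ℝ) * τ - 4)]

end Pool.Agent.Lib.MP_9a9339_an
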