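import Mathlib
import Pool.Agent.Lib.MP_9a9339_an.Core
import Pool.Agent.Lib.MP_9a9339_an.Geometry
import Pool.Agent.Lib.MP_9a9339_an.Hair

set_option autoImplicit false

open Set Filter Topology Metric InnerProductSpace Laplacian MeasureTheory

namespace Pool.Agent.Lib.MP_9a9339_an

open Pool.Agent.Lib.MP_2166fc_an (Sp)

variable {n : ℕ}

namespace StepAaux

open Pool.Agent.Lib.MP_2166fc_an

lemma hasDerivAt_inv_pow (m : ℕ) {s : ℝ} (hs : s ≠ 0) :
    HasDerivAt (fun t : ℝ => (t ^ m)⁻¹) (-(m:ℝ) * (s ^ (m + 1))⁻¹) s := by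
  have h := (hasDerivAt_pow m s).inv (pow_ne_zero m hs)
  refine h.congr_deriv ?_
  cases m with
  | zero => simp
  | succ k =>
    simp only [Nat.add_sub_cancel]
    field_simp
    ring

lemma lap_sub' {u v : Sp n → ℝ} {x : Sp n} (hu : ContDiffAt ℝ 2 u x) (hv : ContDiffAt ℝ 2 v x) :
    Δ (fun y => u y - v y) x = Δ u x - Δ v x := by
  have h := Lop_sub (c := fun _ => 0) hu hv
  simp only [Lop, map_zero, add_zero] at h
  linarith

lemma lap_const_mul' {u : Sp n → ℝ} {x : Sp n} (a : ℝ) (hu : ContDiffAt ℝ 2 u x) :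
    Δ (fun y => a * u y) x = a * Δ u x := by
  have h := Lop_const_mul (c := fun _ => 0) a hu
  simp only [Lop, map_zero, add_zero] at h
  linarith

/-- The comparison function. -/
noncomputable def Hf (n : ℕ) (Z A B : ℝ) (q y : Sp n) : ℝ :=
  Z * (A * (((‖y - q‖ ^ 2) ^ (n + 1))⁻¹ - B) - 1)

lemma contDiffAt_Hf {Z A B : ℝ} {q y : Sp n} (hy : y ≠ q) : ContDiffAt ℝ 2 (Hf n Z A B q) y := by
  unfold Hf
  have h1 : ContDiffAt ℝ 2 (fun y : Sp n => ‖y - q‖ ^ 2) y :=
    (contDiff_norm_sq ℝ (E := Sp n) (n := 2)).contDiffAt.comp y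
      (contDiffAt_id.sub contDiffAt_const)
  have h2 : ContDiffAt ℝ 2 (fun y : Sp n => (‖y - q‖ ^ 2) ^ (n + 1)) y := h1.pow _
  have h3 : (‖y - q‖ ^ 2) ^ (n + 1) ≠ 0 := by
    have : ‖y - q‖ ≠ 0 := by
      rw [norm_ne_zero_iff, sub_ne_zero]; exact hy
    positivity
  exact contDiffAt_const.mul ((contDiffAt_const.mul ((h2.inv h3).sub contDiffAt_const)).sub
    contDiffAt_const)

lemma lap_Hf {Z A B : ℝ} {q y : Sp n} (hy : y ≠ q) :
    Δ (Hf n Z A B q) y
      = Z * (A * (2 * (n + 1) * (n + 4) * ((‖y - q‖ ^ 2) ^ (n + 2))⁻¹)) := by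
  have hs : ‖y - q‖ ^ 2 ≠ 0 := by
    have : ‖y - q‖ ≠ 0 := by
      rw [norm_ne_zero_iff, sub_ne_zero]; exact hy
    positivity
  have e := lap_radial (n := n) (x0 := q) (x := y)
    (Ψ := fun s => Z * (A * ((s ^ (n + 1))⁻¹ - B) - 1))
    (Ψ1 := fun s => Z * (A * (-((n:ℝ) + 1) * (s ^ (n + 2))⁻¹)))
    (b := Z * (A * (-((n:ℝ) + 1) * (-((n:ℝ) + 2) * ((‖y - q‖ ^ 2) ^ (n + 3))⁻¹))))
    (by
      filter_upwards [isOpen_ne.mem_nhds hs] with s hs'
      have h := hasDerivAt_inv_pow (n + 1) (s := s) hs'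
      have h2 := (((h.sub_const B).const_mul A).sub_const 1).const_mul Z
      refine h2.congr_deriv ?_
      push_cast; ring)
    (by
      have h := hasDerivAt_inv_pow (n + 2) (s := ‖y - q‖ ^ 2) hs
      have h2 := ((h.const_mul (-((n:ℝ) + 1))).const_mul A).const_mul Z
      refine h2.congr_deriv ?_
      push_cast; ring)
  have e' : Δ (Hf n Z A B q) y
      = Δ (fun y : Sp n => (fun s : ℝ => Z * (A * ((s ^ (n + 1))⁻¹ - B) - 1)) (‖y - q‖ ^ 2)) y :=
    rfl
  rw [e', e]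
  have h3 : ((‖y - q‖ ^ 2) ^ (n + 3))⁻¹ * (‖y - q‖ ^ 2) = ((‖y - q‖ ^ 2) ^ (n + 2))⁻¹ := by
    generalize ‖y - q‖ ^ 2 = s at hs
    field_simp
    ring
  calc 4 * ‖y - q‖ ^ 2 *
        (Z * (A * (-((n:ℝ) + 1) * (-((n:ℝ) + 2) * ((‖y - q‖ ^ 2) ^ (n + 3))⁻¹)))) +
      2 * n * (Z * (A * (-((n:ℝ) + 1) * ((‖y - q‖ ^ 2) ^ (n + 2))⁻¹)))
      = 4 * (Z * (A * (((n:ℝ) + 1) * (((n:ℝ) + 2) *
          (((‖y - q‖ ^ 2) ^ (n + 3))⁻¹ * (‖y - q‖ ^ 2)))))) +
        2 * n * (Z * (A * (-((n:ℝ) + 1) * ((‖y - q‖ ^ 2) ^ (n + 2))⁻¹))) := by ring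
    _ = _ := by rw [h3]; ring

end StepAaux

open StepAaux in
/-- T6 (step 2a). -/
theorem step_two_a {Ω : Set (Sp n)} {r₀ ρ : ℝ} (hΩ : Dom Ω r₀ ρ) {f : ℝ → ℝ} {c L : ℝ}
    (hf : React f c L) {u v : Sp n → ℝ} (hu : Sol Ω f u) (hv : Sol Ω f v) :
    ∃ ls : ℝ, 0 < ls ∧ ls ≤ 1 / 2 ∧ ∀ lam, 0 < lam → lam ≤ ls → ∀ x, u (lam • x) ≤ 2 * v x := by
  obtain ⟨R₀, hR₀, hair⟩ := hair_trigger n hf
  have hρ := hΩ.ρ_pos
  have hc := hf.c_pos
  have hL := hf.L_pos
  set R₂ : ℝ := R₀ + 2 * ρ with hR₂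
  have hR₂pos : 0 < R₂ := by positivity
  set B : ℝ := ((R₂ ^ 2) ^ (n + 1))⁻¹ with hB
  have hBlt : B < ((ρ ^ 2) ^ (n + 1))⁻¹ := by
    rw [hB]
    apply inv_strictAnti₀ (by positivity)
    apply pow_lt_pow_left₀ _ (by positivity) (by omega)
    apply pow_lt_pow_left₀ (by linarith) hρ.le (by norm_num)
  set A : ℝ := (((ρ ^ 2) ^ (n + 1))⁻¹ - B)⁻¹ with hA
  have hApos : 0 < A := by rw [hA]; exact inv_pos.mpr (by linarith)
  -- the value of `φ` at distance `d`
  set φ : ℝ → ℝ := fun d => A * (((d ^ 2) ^ (n + 1))⁻¹ - B) with hφ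
  have hφanti : ∀ d₁ d₂ : ℝ, 0 < d₁ → d₁ ≤ d₂ → φ d₂ ≤ φ d₁ := by
    intro d₁ d₂ h1 h2
    simp only [hφ]
    apply mul_le_mul_of_nonneg_left _ hApos.le
    have : ((d₂ ^ 2) ^ (n + 1))⁻¹ ≤ ((d₁ ^ 2) ^ (n + 1))⁻¹ := by
      apply inv_anti₀ (by positivity)
      apply pow_le_pow_left₀ (by positivity)
      apply pow_le_pow_left₀ h1.le h2
    linarith
  have hφρ : φ ρ = 1 := by
    simp only [hφ, hA]
    exact inv_mul_cancel₀ (by linarith)
  have hφR₂ : φ R₂ = 0 := by simp [hφ, hB]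
  set θ : ℝ := φ (R₀ + ρ) with hθ
  have hθpos : 0 < θ := by
    simp only [hθ, hφ]
    apply mul_pos hApos
    rw [sub_pos, hB]
    apply inv_strictAnti₀ (by positivity)
    apply pow_lt_pow_left₀ _ (by positivity) (by omega)
    apply pow_lt_pow_left₀ (by linarith) (by positivity) (by norm_num)
  set c₃ : ℝ := A * (2 * (n + 1) * (n + 4) * ((R₂ ^ 2) ^ (n + 2))⁻¹) with hc₃
  have hc₃pos : 0 < c₃ := by positivity
  refine ⟨min (1 / 2) (min (c₃ / L) (c / L)), by positivity, min_le_left _ _, ?_⟩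
  intro lam hlam0 hlam x₀
  have hl1 : lam ≤ 1 / 2 := hlam.trans (min_le_left _ _)
  have hl2 : lam ≤ c₃ / L := hlam.trans ((min_le_right _ _).trans (min_le_left _ _))
  have hl3 : lam ≤ c / L := hlam.trans ((min_le_right _ _).trans (min_le_right _ _))
  have hl2' : lam * L ≤ c₃ := (le_div_iff₀ hL).mp hl2
  have hl3' : lam * L ≤ c := (le_div_iff₀ hL).mp hl3
  set μ : ℝ := L * lam ^ 2 with hμ
  have hμ0 : 0 < μ := by positivity
  have hμ1 : μ < c₃ := by
    have : μ = lam * L * lam := by rw [hμ]; ring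
    rw [this]
    nlinarith [mul_pos hlam0 hL]
  have hμ2 : μ ≤ c / 2 := by
    have : μ = lam * L * lam := by rw [hμ]; ring
    rw [this]
    nlinarith [mul_pos hlam0 hL]
  by_contra hneg
  push Not at hneg
  -- the supremum
  set S : Set ℝ := range (fun x : Sp n => u (lam • x) - 2 * v x) with hS
  have hbdd : BddAbove S := by
    refine ⟨1, ?_⟩
    rintro _ ⟨x, rfl⟩
    have := hu.le_one (lam • x)
    have := hv.nonneg x
    simp only
    linarith
  have hne : S.Nonempty := ⟨_, ⟨x₀, rfl⟩⟩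
  set Z : ℝ := sSup S with hZ
  have hleZ : ∀ x : Sp n, u (lam • x) - 2 * v x ≤ Z := fun x => le_csSup hbdd ⟨x, rfl⟩
  have hZpos : 0 < Z := lt_of_lt_of_le (by linarith) (hleZ x₀)
  -- main estimate
  have key : ∀ x : Sp n, 2 * v x < u (lam • x) → u (lam • x) - 2 * v x ≤ Z * (1 - θ) := by
    intro x hx
    have hax : 0 < u (lam • x) := lt_of_le_of_lt (by have := hv.nonneg x; linarith) hx
    have hmemΩ : ∀ y : Sp n, 0 < u (lam • y) → y ∈ Ω := by
      intro y hy
      by_contra hyΩ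
      exact hΩ.smul_notMem hyΩ hlam0.le (by linarith) (hu.mem_of_pos hy)
    have hxΩ : x ∈ Ω := hmemΩ x hax
    have hnb : ¬ closedBall x R₀ ⊆ Ω := by
      intro hsub
      have := hair Ω v x hΩ.isOpen hv hsub
      have := hu.le_one (lam • x)
      linarith
    obtain ⟨q, hq1, hq2⟩ := hΩ.exists_ext_ball hxΩ hnb hρ le_rfl
    -- the annulus
    set K : Set (Sp n) := closedBall q R₂ \ ball q ρ with hK
    have hKc : IsCompact K := (isCompact_closedBall q R₂).diff isOpen_ball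
    have hKmem : ∀ y, y ∈ K ↔ ρ ≤ ‖y - q‖ ∧ ‖y - q‖ ≤ R₂ := by
      intro y
      rw [hK, Set.mem_sdiff, mem_closedBall, mem_ball, dist_eq_norm, not_lt, and_comm]
    have hxq : ρ < ‖x - q‖ := by
      by_contra hle
      push Not at hle
      exact hq2 x (by rw [mem_closedBall, dist_eq_norm]; exact hle) hxΩ
    have hxq2 : ‖x - q‖ ≤ R₀ + ρ := by rw [← dist_eq_norm]; exact hq1
    have hxK : x ∈ K := (hKmem x).mpr ⟨hxq.le, by linarith⟩
    have hHφ : ∀ y, Hf n Z A B q y = Z * (φ ‖y - q‖ - 1) := fun y => rfl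
    set G : Sp n → ℝ := fun y => (2 * v y - u (lam • y)) - Hf n Z A B q y with hG
    have hGcont : ContinuousOn G K := by
      intro y hy
      have hyq : y ≠ q := by
        rintro rfl
        have := ((hKmem y).mp hy).1
        simp at this
        linarith
      have h1 : ContinuousAt (fun y : Sp n => 2 * v y - u (lam • y)) y := by
        have e1 := hu.cont
        have e2 := hv.cont
        have : Continuous (fun y : Sp n => 2 * v y - u (lam • y)) := by fun_prop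
        exact this.continuousAt
      exact (h1.sub (contDiffAt_Hf hyq).continuousAt).continuousWithinAt
    obtain ⟨y, hyK, hymin⟩ := hKc.exists_isMinOn ⟨x, hxK⟩ hGcont
    have hyK' := (hKmem y).mp hyK
    have hclaim : 0 ≤ G y := by
      by_contra hGneg
      push Not at hGneg
      have hφ1 : φ ‖y - q‖ ≤ 1 := by
        rw [← hφρ]; exact hφanti _ _ hρ hyK'.1
      have hGy : G y = 2 * v y - u (lam • y) - Z * (φ ‖y - q‖ - 1) := rfl
      have hpos : 2 * v y < u (lam • y) := by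
        have h1 : 0 ≤ Z * (1 - φ ‖y - q‖) := mul_nonneg hZpos.le (by linarith)
        have h2 : Z * (φ ‖y - q‖ - 1) = -(Z * (1 - φ ‖y - q‖)) := by ring
        linarith
      have hay : 0 < u (lam • y) := lt_of_le_of_lt (by have := hv.nonneg y; linarith) hpos
      have hyΩ : y ∈ Ω := hmemΩ y hay
      have hlyΩ : lam • y ∈ Ω := hu.mem_of_pos hay
      have hyq1 : ρ < ‖y - q‖ := by
        by_contra hle
        push Not at hle
        exact hq2 y (by rw [mem_closedBall, dist_eq_norm]; exact hle) hyΩ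
      have hyq2 : ‖y - q‖ < R₂ := by
        rcases hyK'.2.lt_or_eq with h | h
        · exact h
        · exfalso
          rw [h, hφR₂] at hGy
          have := hleZ y
          linarith
      have hyq : y ≠ q := by
        rintro rfl
        simp at hyq1
        linarith
      -- local minimum
      have hnhds : K ∈ 𝓝 y := by
        have hcn : Continuous (fun z : Sp n => ‖z - q‖) := by fun_prop
        have ho : IsOpen {z : Sp n | ρ < ‖z - q‖ ∧ ‖z - q‖ < R₂} :=
          (isOpen_lt continuous_const hcn).and (isOpen_lt hcn continuous_const)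
        filter_upwards [ho.mem_nhds ⟨hyq1, hyq2⟩] with z hz
        exact (hKmem z).mpr ⟨hz.1.le, hz.2.le⟩
      have hlocal : IsLocalMin G y := by
        filter_upwards [hnhds] with z hz
        exact hymin hz
      have hvC : ContDiffAt ℝ 2 v y := hv.smooth.contDiffAt (hΩ.isOpen.mem_nhds hyΩ)
      have huC : ContDiffAt ℝ 2 u (lam • y) := hu.smooth.contDiffAt (hΩ.isOpen.mem_nhds hlyΩ)
      have haC : ContDiffAt ℝ 2 (fun y : Sp n => u (lam • y)) y :=
        ContDiffAt.comp y huC (contDiffAt_id.const_smul lam)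
      have h2v : ContDiffAt ℝ 2 (fun y : Sp n => 2 * v y) y := contDiffAt_const.mul hvC
      have hHC : ContDiffAt ℝ 2 (Hf n Z A B q) y := contDiffAt_Hf hyq
      have hGC : ContDiffAt ℝ 2 G y := (h2v.sub haC).sub hHC
      have hlap := Pool.Agent.Lib.MP_2166fc_an.lap_nonneg_of_isLocalMin hGC hlocal
      have e1 : Δ G y = (2 * Δ v y - lam ^ 2 * Δ u (lam • y)) - Δ (Hf n Z A B q) y := by
        rw [hG, lap_sub' (h2v.sub haC) hHC, lap_sub' h2v haC, lap_const_mul' 2 hvC,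
          lap_comp_smul huC]
      rw [e1, hv.eq y hyΩ, hu.eq _ hlyΩ, lap_Hf hyq] at hlap
      -- estimate of `Δ φ`
      have hs : 0 < ‖y - q‖ := lt_trans hρ hyq1
      have h3 : ((R₂ ^ 2) ^ (n + 2))⁻¹ ≤ ((‖y - q‖ ^ 2) ^ (n + 2))⁻¹ := by
        apply inv_anti₀ (by positivity)
        apply pow_le_pow_left₀ (by positivity)
        apply pow_le_pow_left₀ hs.le hyq2.le
      have h4 : Z * c₃ ≤ Z * (A * (2 * (n + 1) * (n + 4) * ((‖y - q‖ ^ 2) ^ (n + 2))⁻¹)) := by
        apply mul_le_mul_of_nonneg_left _ hZpos.le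
        rw [hc₃]
        apply mul_le_mul_of_nonneg_left _ hApos.le
        apply mul_le_mul_of_nonneg_left h3 (by positivity)
      have h5 : f (u (lam • y)) ≤ L * u (lam • y) := hf.upper0 _ (hu.mem_Icc _)
      have h6 : c * (v y * (1 - v y)) ≤ f (v y) := hf.lower _ (hv.mem_Icc _)
      have hv0 := hv.nonneg y
      have hu1 := hu.le_one (lam • y)
      have h7 : v y / 2 ≤ v y * (1 - v y) := by
        have h71 : (1:ℝ) / 2 ≤ 1 - v y := by linarith
        have := mul_le_mul_of_nonneg_left h71 hv0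
        linarith
      have h8 : c * (v y / 2) ≤ f (v y) :=
        le_trans (mul_le_mul_of_nonneg_left h7 hc.le) h6
      have h9 : lam ^ 2 * f (u (lam • y)) ≤ μ * u (lam • y) := by
        have h91 := mul_le_mul_of_nonneg_left h5 (sq_nonneg lam)
        have h92 : lam ^ 2 * (L * u (lam • y)) = μ * u (lam • y) := by rw [hμ]; ring
        linarith
      have h10 : (2 * μ) * v y ≤ c * v y := mul_le_mul_of_nonneg_right (by linarith) hv0
      have h11 := hleZ y
      have h12 : μ * (u (lam • y) - 2 * v y) ≤ μ * Z := mul_le_mul_of_nonneg_left h11 hμ0.le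
      have h13 : μ * Z < c₃ * Z := mul_lt_mul_of_pos_right hμ1 hZpos
      have h14 : μ * (u (lam • y) - 2 * v y) = μ * u (lam • y) - (2 * μ) * v y := by ring
      have h15 : c * (v y / 2) = c * v y / 2 := by ring
      have h16 : c₃ * Z = Z * c₃ := by ring
      linarith
    have hGx : G x = 2 * v x - u (lam • x) - Z * (φ ‖x - q‖ - 1) := rfl
    have h1 : G y ≤ G x := hymin hxK
    have h2 : θ ≤ φ ‖x - q‖ := by
      rw [hθ]; exact hφanti _ _ (lt_trans hρ hxq) hxq2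
    have h3 : Z * θ ≤ Z * φ ‖x - q‖ := mul_le_mul_of_nonneg_left h2 hZpos.le
    have h4 : Z * (φ ‖x - q‖ - 1) = Z * φ ‖x - q‖ - Z := by ring
    have h5 : Z * (1 - θ) = Z - Z * θ := by ring
    linarith
  have hθle : θ ≤ 1 := by
    rw [← hφρ, hθ]; exact hφanti _ _ hρ (by linarith)
  have hfinal : Z ≤ Z * (1 - θ) := by
    apply csSup_le hne
    rintro _ ⟨x, rfl⟩
    simp only
    rcases lt_or_ge (2 * v x) (u (lam • x)) with h | h
    · exact key x h
    · have : 0 ≤ Z * (1 - θ) := mul_nonneg hZpos.le (by linarith)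
      linarith
  have h1 := mul_pos hZpos hθpos
  have h2 : Z * (1 - θ) = Z - Z * θ := by ring
  linarith

end Pool.Agent.Lib.MP_9a9339_an
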