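import Mathlib
import Pool.Agent.Lib.MP_9a9339_an.Core
import Pool.Agent.Lib.MP_9a9339_an.StepA
import Pool.Agent.Lib.MP_9a9339_an.Mg.G004

set_option autoImplicit false

open Set Filter Topology Metric InnerProductSpace Laplacian MeasureTheory

namespace Pool.Agent.Lib.MP_9a9339_an

open Pool.Agent.Lib.MP_2166fc_an (Sp)

variable {n : ℕ}

lemma stepB_upper {f : ℝ → ℝ} {c L : ℝ} (hf : React f c L) {s : ℝ} (hs : s ∈ Icc (0:ℝ) 1) :
    f s ≤ 2 * L * (s * (1 - s)) := by
  have hL := hf.L_pos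
  obtain ⟨h0, h1⟩ := hs
  rcases le_total s (1 / 2) with h | h
  · have := hf.upper0 s ⟨h0, h1⟩
    have h2 : 0 ≤ L * s * (1 / 2 - s) := by
      apply mul_nonneg (mul_nonneg hL.le h0); linarith
    nlinarith
  · have := hf.upper1 s ⟨h0, h1⟩
    have h2 : 0 ≤ L * (1 - s) * (s - 1 / 2) := by
      apply mul_nonneg (mul_nonneg hL.le (by linarith)); linarith
    nlinarith

/-- The differential inequality for `w = σ v - a`. -/
lemma stepB_ineq {f : ℝ → ℝ} {c L : ℝ} (hf : React f c L) {σ a v lam : ℝ}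
    (ha : a ∈ Icc (0:ℝ) 1) (hv : v ∈ Icc (0:ℝ) 1) (hσ : 1 ≤ σ) (hw : a ≤ σ * v)
    (hlam : L * lam ^ 2 ≤ c / 4) :
    σ * c / 2 * (v * (1 - v)) - c * σ / 2 * (σ * v - a) ≤ σ * f v - lam ^ 2 * f a := by
  have hc := hf.c_pos
  have h1 := hf.lower v hv
  have h2 := stepB_upper hf ha
  have h3 : lam ^ 2 * f a ≤ c / 2 * (a * (1 - a)) := by
    have h4 : lam ^ 2 * f a ≤ lam ^ 2 * (2 * L * (a * (1 - a))) :=
      mul_le_mul_of_nonneg_left h2 (by positivity)
    have h5 : 0 ≤ a * (1 - a) := mul_nonneg ha.1 (by linarith [ha.2])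
    have h6 : (L * lam ^ 2) * (a * (1 - a)) ≤ c / 4 * (a * (1 - a)) :=
      mul_le_mul_of_nonneg_right hlam h5
    nlinarith
  have h7 : a * (1 - a) ≤ σ * (v * (1 - v)) + σ * (σ * v - a) := by
    have h8 : a * (1 - a) ≤ σ * v * (1 - a) :=
      mul_le_mul_of_nonneg_right hw (by linarith [ha.2])
    have hw0 : 0 ≤ σ * v - a := by linarith
    have h9 : v * (v - a) ≤ σ * v - a := by
      have h10 : v - a ≤ σ * v - a := by nlinarith [hv.1]
      have h11 : v * (v - a) ≤ v * (σ * v - a) := mul_le_mul_of_nonneg_left h10 hv.1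
      have h12 : v * (σ * v - a) ≤ 1 * (σ * v - a) := mul_le_mul_of_nonneg_right hv.2 hw0
      linarith
    have h13 : σ * (v * (v - a)) ≤ σ * (σ * v - a) :=
      mul_le_mul_of_nonneg_left h9 (by linarith)
    nlinarith
  have h14 : σ * (c * (v * (1 - v))) ≤ σ * f v := mul_le_mul_of_nonneg_left h1 (by linarith)
  have h15 : c / 2 * (a * (1 - a)) ≤ c / 2 * (σ * (v * (1 - v)) + σ * (σ * v - a)) :=
    mul_le_mul_of_nonneg_left h7 (by linarith)
  nlinarith

/-- T8 (step 2b). -/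
theorem step_two_b {Ω : Set (Sp n)} {r₀ ρ : ℝ} (hΩ : Dom Ω r₀ ρ) {f : ℝ → ℝ} {c L : ℝ}
    (hf : React f c L) {u v : Sp n → ℝ} (hu : Sol Ω f u) (hv : Sol Ω f v) :
    ∃ ls : ℝ, 0 < ls ∧ ls ≤ 1 / 2 ∧ ∀ lam, 0 < lam → lam ≤ ls → ∀ x, u (lam • x) ≤ v x := by
  have hc := hf.c_pos
  have hL := hf.L_pos
  have hr₀ := hΩ.r₀_pos
  obtain ⟨ls0, hls0, hls0h, hA⟩ := step_two_a hΩ hf hu hv
  refine ⟨min ls0 (c / (4 * L)), lt_min hls0 (by positivity), (min_le_left _ _).trans hls0h, ?_⟩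
  intro lam hlam0 hlam
  have hlam1 : lam ≤ ls0 := hlam.trans (min_le_left _ _)
  have hlam2 : lam ≤ c / (4 * L) := hlam.trans (min_le_right _ _)
  have hlamh : lam ≤ 1 / 2 := hlam1.trans hls0h
  have hLlam : L * lam ^ 2 ≤ c / 4 := by
    have h1 : lam * (4 * L) ≤ c := (le_div_iff₀ (by positivity)).mp hlam2
    have h2 : L * lam ^ 2 ≤ L * lam := by
      have : lam ^ 2 ≤ lam := by nlinarith
      exact mul_le_mul_of_nonneg_left this hL.le
    linarith
  have hA' := hA lam hlam0 hlam1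
  set T : Set ℝ := {s | s ∈ Icc (1:ℝ) 2 ∧ ∀ x, u (lam • x) ≤ s * v x} with hT
  have hTne : T.Nonempty := ⟨2, ⟨by norm_num, le_rfl⟩, hA'⟩
  have hTbdd : BddBelow T := ⟨1, fun s hs => hs.1.1⟩
  have hTclosed : IsClosed T := by
    have e : T = Icc (1:ℝ) 2 ∩ ⋂ x, {s | u (lam • x) ≤ s * v x} := by
      ext s
      simp [hT]
    rw [e]
    refine isClosed_Icc.inter (isClosed_iInter fun x => ?_)
    exact isClosed_le continuous_const (by fun_prop)
  have hσT : sInf T ∈ T := hTclosed.csInf_mem hTne hTbdd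
  set σ := sInf T with hσdef
  obtain ⟨⟨hσ1, hσ2⟩, hσw⟩ := hσT
  rcases hσ1.eq_or_lt with heq | hσgt
  · intro x
    have := hσw x
    rw [← heq, one_mul] at this
    exact this
  exfalso
  obtain ⟨δ, hδ, hδR, hmod⟩ := sol_modulus n hf (R := r₀ / 2) (ε := 1 / 2) (by positivity)
    (by norm_num)
  set D : ℝ := 2 * n + (c * σ / 2) * δ ^ 2 + 1 with hD
  have hDpos : 0 < D := by positivity
  set κ : ℝ := (σ * c / 8) * δ ^ 2 / D with hκ
  have hκpos : 0 < κ := by positivity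
  have hτ : 0 < 1 - 2 / (1 + σ) := by
    have : 2 / (1 + σ) < 1 := by
      rw [div_lt_one (by linarith)]; linarith
    linarith
  set σ' : ℝ := max ((1 + σ) / 2) (σ - κ * (1 - 2 / (1 + σ))) with hσ'
  have hσ'lt : σ' < σ := by
    refine max_lt (by linarith) ?_
    have : 0 < κ * (1 - 2 / (1 + σ)) := mul_pos hκpos hτ
    linarith
  have hσ'1 : (1 + σ) / 2 ≤ σ' := le_max_left _ _
  have hσ'2 : σ - κ * (1 - 2 / (1 + σ)) ≤ σ' := le_max_right _ _
  have hnot : σ' ∉ T := fun h => absurd (csInf_le hTbdd h) (not_le.mpr hσ'lt)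
  have hex : ∃ x, σ' * v x < u (lam • x) := by
    by_contra hcon
    push Not at hcon
    exact hnot ⟨⟨by linarith, by linarith⟩, hcon⟩
  obtain ⟨x, hx⟩ := hex
  have hσ'pos : 0 < σ' := by linarith
  have hupos : 0 < u (lam • x) := lt_of_le_of_lt (mul_nonneg hσ'pos.le (hv.nonneg x)) hx
  have hmem : lam • x ∈ Ω := hu.mem_of_pos hupos
  have hball : ball x (r₀ / 2) ⊆ Ω := by
    refine (ball_subset_ball ?_).trans
      (hΩ.ball_subset hlam0 (by linarith) (subset_closure hmem))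
    nlinarith
  have hcb : closedBall x δ ⊆ Ω := (closedBall_subset_ball hδR).trans hball
  have hxΩ : x ∈ Ω := hcb (mem_closedBall_self hδ.le)
  have hvx : 0 < v x := hv.pos x hxΩ
  have hvx1 : v x < 2 / (1 + σ) := by
    have h1 : σ' * v x < 1 := hx.trans_le (hu.le_one _)
    rw [lt_div_iff₀ (by linarith)]
    nlinarith
  have hv1 : 0 < 1 - v x := by linarith
  have hmod' := hmod Ω v x hΩ.isOpen hv hball
  have hG : 0 < σ * c / 8 * (v x * (1 - v x)) := by positivity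
  have hprod : ∀ y ∈ closedBall x δ, 1 / 4 * (v x * (1 - v x)) ≤ v y * (1 - v y) := by
    intro y hy
    obtain ⟨m1, m2⟩ := hmod' y hy
    have a1 := abs_le.mp m1
    have a2 := abs_le.mp m2
    have b1 : v x / 2 ≤ v y := by linarith [a1.1]
    have b2 : (1 - v x) / 2 ≤ 1 - v y := by linarith [a2.2]
    have := mul_le_mul b1 b2 (by linarith) (hv.nonneg y)
    linarith
  have key := mv3 hΩ.isOpen hu hv (x := x) (r := δ) (C := c * σ / 2)
    (G := σ * c / 8 * (v x * (1 - v x))) (lam := lam) (σ := σ) hδ (by positivity) hG hlam0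
    (by linarith) hcb (fun y _ => hσw y)
    (fun y hy => by
      have h1 := hf.lower (v y) (hv.mem_Icc y)
      have h2 := hprod y hy
      have h3 : σ * (c * (v y * (1 - v y))) ≤ σ * f (v y) :=
        mul_le_mul_of_nonneg_left h1 (by linarith)
      have h4 : σ * c * (1 / 4 * (v x * (1 - v x))) ≤ σ * c * (v y * (1 - v y)) :=
        mul_le_mul_of_nonneg_left h2 (by positivity)
      nlinarith)
    (fun y hy _ => by
      have h1 := stepB_ineq hf (hu.mem_Icc (lam • y)) (hv.mem_Icc y) hσgt.le (hσw y) hLlam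
      have h2 := hprod y hy
      have h4 : σ * c / 2 * (1 / 4 * (v x * (1 - v x))) ≤ σ * c / 2 * (v y * (1 - v y)) :=
        mul_le_mul_of_nonneg_left h2 (by positivity)
      linarith)
  have e1 : σ * c / 8 * (v x * (1 - v x)) * δ ^ 2 / (2 * n + c * σ / 2 * δ ^ 2 + 1) =
      κ * (v x * (1 - v x)) := by
    rw [hκ, hD]; ring
  rw [e1] at key
  have k1 : κ * (v x * (1 - v x)) < (σ - σ') * v x := by nlinarith
  have k2 : κ * (1 - v x) < σ - σ' := by
    have : (κ * (1 - v x)) * v x < (σ - σ') * v x := by linarith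
    exact lt_of_mul_lt_mul_right this hvx.le
  have k3 : κ * (1 - 2 / (1 + σ)) < κ * (1 - v x) := by
    apply mul_lt_mul_of_pos_left _ hκpos
    linarith
  linarith

end Pool.Agent.Lib.MP_9a9339_an
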