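import Mathlib
import Pool.Agent.Lib.MP_9a9339_an.Core
import Pool.Agent.Lib.MP_9a9339_an.StepB
import Pool.Agent.Lib.MP_9a9339_an.Barrier
import Pool.Agent.Lib.MP_9a9339_an.Mg.G004
import Pool.Agent.Lib.MP_9a9339_an.Geometry

set_option autoImplicit false

open Set Filter Topology Metric InnerProductSpace Laplacian MeasureTheory

namespace Pool.Agent.Lib.MP_9a9339_an

open Pool.Agent.Lib.MP_2166fc_an (Sp)

variable {n : ℕ}

/-- The log-penalised minimisation of the dilation parameter. -/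
lemma exists_penalised_min {S : Set (Sp n × ℝ)} (hS : IsClosed S) {l0 l1 : ℝ} (hl0 : 0 ≤ l0)
    (hSl : ∀ p ∈ S, l0 ≤ p.2 ∧ p.2 ≤ l1) {p₀ : Sp n × ℝ} (hp₀ : p₀ ∈ S) {η : ℝ} (hη : 0 < η) :
    ∃ p ∈ S, ∀ q ∈ S, p.2 + η * Real.log (1 + ‖p.1‖) ≤ q.2 + η * Real.log (1 + ‖q.1‖) := by
  have hpos : ∀ x : Sp n, (0:ℝ) < 1 + ‖x‖ := fun x => by positivity
  have hcont : Continuous (fun p : Sp n × ℝ => p.2 + η * Real.log (1 + ‖p.1‖)) := by
    refine continuous_snd.add (continuous_const.mul ?_)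
    exact Continuous.log (by fun_prop) (fun p => (hpos p.1).ne')
  set F : Sp n × ℝ → ℝ := fun p => p.2 + η * Real.log (1 + ‖p.1‖) with hF
  set Rb : ℝ := Real.exp (F p₀ / η) with hRb
  have hK : IsCompact ((closedBall (0 : Sp n) Rb) ×ˢ (Icc l0 l1)) :=
    (isCompact_closedBall _ _).prod isCompact_Icc
  obtain ⟨p, hpS, hp⟩ := ContinuousOn.exists_isMinOn' (f := F) hcont.continuousOn hS hp₀ (by
    rw [eventually_iff]
    refine mem_inf_of_inter hK.compl_mem_cocompact (mem_principal_self S) ?_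
    rintro p ⟨hpK, hpS⟩
    have h1 := hSl p hpS
    have h2 : Rb < ‖p.1‖ := by
      by_contra h
      push Not at h
      exact hpK ⟨by simpa using h, h1⟩
    have h3 : F p₀ / η ≤ Real.log (1 + ‖p.1‖) := by
      rw [Real.le_log_iff_exp_le (hpos _)]
      linarith
    have h4 : F p₀ ≤ η * Real.log (1 + ‖p.1‖) := by
      rw [div_le_iff₀ hη] at h3
      linarith
    rw [mem_ofPred_eq]
    calc F p₀ ≤ η * Real.log (1 + ‖p.1‖) := h4
      _ ≤ F p := by simp only [hF]; linarith [h1.1])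
  exact ⟨p, hpS, fun q hq => hp hq⟩

/-- T10 (main step): the dilation inequality. -/
theorem main_step {Ω : Set (Sp n)} {r₀ ρ : ℝ} (hΩ : Dom Ω r₀ ρ) {f : ℝ → ℝ} {c L : ℝ}
    (hf : React f c L) {u v : Sp n → ℝ} (hu : Sol Ω f u) (hv : Sol Ω f v)
    (hv1 : ∀ x, v x < 1) {lam : ℝ} (h0 : 0 < lam) (h1 : lam < 1) (x : Sp n) :
    u (lam • x) ≤ v x := by
  by_contra hneg
  push Not at hneg
  have hc := hf.c_pos
  have hL := hf.L_pos
  obtain ⟨ls, hls0, -, hls⟩ := step_two_b hΩ hf hu hv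
  set l0 : ℝ := min ls (lam / 2) with hl0
  have hl0pos : 0 < l0 := lt_min hls0 (by linarith)
  have hl0ls : l0 ≤ ls := min_le_left _ _
  have hl0lam : l0 < lam := (min_le_right _ _).trans_lt (by linarith)
  have hr₀ := hΩ.r₀_pos
  set R1 : ℝ := (1 - lam) * r₀ with hR1
  have hR1pos : 0 < R1 := mul_pos (by linarith) hr₀
  obtain ⟨δ1, hδ1, hδ1R, hmod1⟩ := sol_modulus n hf hR1pos (show (0:ℝ) < 1 / 2 by norm_num)
  set r : ℝ := min δ1 1 with hr
  have hrpos : 0 < r := lt_min hδ1 one_pos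
  have hr1 : r ≤ 1 := min_le_right _ _
  have hrδ : r ≤ δ1 := min_le_left _ _
  set r' : ℝ := l0 * r / 4 with hr'
  have hr'pos : 0 < r' := by positivity
  obtain ⟨t, ht, hbar⟩ := boundary_barrier n hf hΩ.ρ_pos hr'pos (show (0:ℝ) < 3 / 2 by norm_num)
  have hden : (0:ℝ) < 2 * n + L * r ^ 2 + 1 := by positivity
  set c4 : ℝ := (1 - lam ^ 2) * c / 4 * r ^ 2 / (2 * n + L * r ^ 2 + 1) with hc4
  have hlam2 : 0 < 1 - lam ^ 2 := by nlinarith
  have hc4pos : 0 < c4 := by positivity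
  obtain ⟨δ5, hδ5, hδ5t, hmod5⟩ := sol_modulus n hf ht (show (0:ℝ) < c4 / 4 by positivity)
  set η : ℝ := min (l0 / 8) (δ5 / 2) with hη
  have hηpos : 0 < η := lt_min (by positivity) (by positivity)
  have hη1 : η ≤ l0 / 8 := min_le_left _ _
  have hη2 : η ≤ δ5 / 2 := min_le_right _ _
  -- the closed set
  set S : Set (Sp n × ℝ) := {p | l0 ≤ p.2 ∧ p.2 ≤ lam ∧ p.2 • p.1 ∈ closure Ω ∧
    v p.1 ≤ u (p.2 • p.1)} with hS
  have hSclosed : IsClosed S := by
    have e1 : IsClosed {p : Sp n × ℝ | l0 ≤ p.2} := isClosed_le continuous_const continuous_snd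
    have e2 : IsClosed {p : Sp n × ℝ | p.2 ≤ lam} := isClosed_le continuous_snd continuous_const
    have e3 : IsClosed {p : Sp n × ℝ | p.2 • p.1 ∈ closure Ω} :=
      isClosed_closure.preimage (continuous_snd.smul continuous_fst)
    have e4 : IsClosed {p : Sp n × ℝ | v p.1 ≤ u (p.2 • p.1)} :=
      isClosed_le (hv.cont.comp continuous_fst) (hu.cont.comp (continuous_snd.smul continuous_fst))
    exact e1.inter (e2.inter (e3.inter e4))
  have hS0 : ((x, lam) : Sp n × ℝ) ∈ S := by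
    refine ⟨hl0lam.le, le_rfl, ?_, hneg.le⟩
    exact subset_closure (hu.mem_of_pos ((hv.nonneg x).trans_lt hneg))
  obtain ⟨⟨xη, lη⟩, hpS, hmin⟩ := exists_penalised_min hSclosed hl0pos.le
    (fun p hp => ⟨hp.1, hp.2.1⟩) hS0 hηpos
  simp only at hmin
  obtain ⟨hlη0, hlη1, hclo, hle⟩ : l0 ≤ lη ∧ lη ≤ lam ∧ lη • xη ∈ closure Ω ∧
    v xη ≤ u (lη • xη) := hpS
  have hlηpos : 0 < lη := hl0pos.trans_le hlη0
  have hball1 : ball xη R1 ⊆ Ω := by
    refine (ball_subset_ball ?_).trans (hΩ.ball_subset hlηpos (hlη1.trans_lt h1) hclo)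
    exact mul_le_mul_of_nonneg_right (by linarith) hr₀.le
  have hxηΩ : xη ∈ Ω := hball1 (mem_ball_self hR1pos)
  set b : ℝ := v xη with hb
  have hbpos : 0 < b := hv.pos xη hxηΩ
  have hb1 : b < 1 := hv1 xη
  set y0 : Sp n := lη • xη with hy0
  set B : ℝ := u y0 with hB
  have hBpos : 0 < B := hbpos.trans_le hle
  have hy0Ω : y0 ∈ Ω := hu.mem_of_pos hBpos
  have hmodv : ∀ y ∈ closedBall xη r, |v y - b| ≤ 1 / 2 * b ∧ |v y - b| ≤ 1 / 2 * (1 - b) :=
    fun y hy => hmod1 Ω v xη hΩ.isOpen hv hball1 y (closedBall_subset_closedBall hrδ hy)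
  have hnx : (0:ℝ) < 1 + ‖xη‖ := by positivity
  obtain ⟨lm, hlm⟩ : ∃ lm : ℝ, lm = lη - 2 * η * r / (1 + ‖xη‖) := ⟨_, rfl⟩
  have hshift0 : 0 < 2 * η * r / (1 + ‖xη‖) := by positivity
  have hshift1 : 2 * η * r / (1 + ‖xη‖) ≤ 2 * η * r := by
    apply div_le_self (by positivity)
    linarith [norm_nonneg xη]
  have hηr : 2 * η * r ≤ l0 * r / 4 := by nlinarith
  have hηr' : 2 * η * r ≤ l0 / 4 := by nlinarith
  have hηr5 : 2 * η * r ≤ δ5 := by nlinarith
  have hlmpos : 3 / 4 * l0 ≤ lm := by rw [hlm]; linarith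
  have hlm0 : 0 < lm := by linarith
  have hlmη : lm ≤ lη := by rw [hlm]; linarith
  have hlm1 : lm ≤ lam := hlmη.trans hlη1
  -- displacement
  have hdisp : ‖(lη - lm) • xη‖ ≤ 2 * η * r := by
    rw [norm_smul, Real.norm_eq_abs]
    have e1 : lη - lm = 2 * η * r / (1 + ‖xη‖) := by rw [hlm]; ring
    rw [e1, abs_of_pos hshift0, div_mul_eq_mul_div]
    rw [div_le_iff₀ hnx]
    nlinarith [norm_nonneg xη, mul_pos hηpos hrpos]
  -- comparison
  have hcmp : ∀ y ∈ closedBall xη r, u (lm • y) ≤ v y := by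
    intro y hy
    by_contra hcon
    push Not at hcon
    rcases le_or_gt lm l0 with hcase | hcase
    · exact absurd (hls lm hlm0 (hcase.trans hl0ls) y) (not_le.2 hcon)
    · have hyS : ((y, lm) : Sp n × ℝ) ∈ S := by
        refine ⟨hcase.le, hlm1, ?_, hcon.le⟩
        exact subset_closure (hu.mem_of_pos ((hv.nonneg y).trans_lt hcon))
      have h2 := hmin (y, lm) hyS
      simp only at h2
      have hny : (0:ℝ) < 1 + ‖y‖ := by positivity
      have h3 : Real.log (1 + ‖y‖) - Real.log (1 + ‖xη‖) ≤ r / (1 + ‖xη‖) := by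
        rw [← Real.log_div hny.ne' hnx.ne']
        have h4 := Real.log_le_sub_one_of_pos (div_pos hny hnx)
        have h5 : ‖y‖ ≤ ‖xη‖ + r := by
          have h6 : ‖y - xη‖ ≤ r := by simpa [dist_eq_norm] using hy
          have h7 := norm_le_norm_add_norm_sub' y xη
          linarith
        have h8 : (1 + ‖y‖) / (1 + ‖xη‖) - 1 ≤ r / (1 + ‖xη‖) := by
          rw [div_sub_one hnx.ne', div_le_div_iff_of_pos_right hnx]
          linarith
        linarith
      have h9 : lη - lm = 2 * η * r / (1 + ‖xη‖) := by rw [hlm]; ring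
      have h10 : η * (Real.log (1 + ‖y‖) - Real.log (1 + ‖xη‖)) ≤ η * (r / (1 + ‖xη‖)) :=
        mul_le_mul_of_nonneg_left h3 hηpos.le
      have h11 : 2 * η * r / (1 + ‖xη‖) = 2 * (η * (r / (1 + ‖xη‖))) := by ring
      have h12 : 0 < η * (r / (1 + ‖xη‖)) := by positivity
      linarith
  have hrR1 : closedBall xη r ⊆ Ω :=
    (closedBall_subset_ball (hrδ.trans_lt hδ1R)).trans hball1
  have hbb : 0 < b * (1 - b) := mul_pos hbpos (by linarith)
  -- lower bounds on the ball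
  have hvlow : ∀ y ∈ closedBall xη r, c / 4 * (b * (1 - b)) ≤ f (v y) := by
    intro y hy
    obtain ⟨e1, e2⟩ := hmodv y hy
    rw [abs_le] at e1 e2
    have h2 := hf.lower (v y) (hv.mem_Icc y)
    have h3 : b / 2 ≤ v y := by linarith [e1.1]
    have h4 : (1 - b) / 2 ≤ 1 - v y := by linarith [e2.2]
    have h5 : b / 2 * ((1 - b) / 2) ≤ v y * (1 - v y) :=
      mul_le_mul h3 h4 (by linarith) (by linarith)
    have h6 : c * (b / 2 * ((1 - b) / 2)) ≤ c * (v y * (1 - v y)) :=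
      mul_le_mul_of_nonneg_left h5 hc.le
    calc c / 4 * (b * (1 - b)) = c * (b / 2 * ((1 - b) / 2)) := by ring
      _ ≤ f (v y) := h6.trans h2
  have hmv := mv3 (G := (1 - lam ^ 2) * c / 4 * (b * (1 - b))) (C := L) (lam := lm) (σ := 1)
    (x := xη) (r := r) hΩ.isOpen hu hv hrpos hL.le (by positivity) hlm0 one_pos hrR1
    (fun y hy => by rw [one_mul]; exact hcmp y hy)
    (fun y hy => by
      have h2 := hvlow y hy
      have h3 : 0 < c / 4 * (b * (1 - b)) := by positivity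
      rw [one_mul]
      calc (1 - lam ^ 2) * c / 4 * (b * (1 - b)) = (1 - lam ^ 2) * (c / 4 * (b * (1 - b))) := by
            ring
        _ ≤ 1 * (c / 4 * (b * (1 - b))) := by
            apply mul_le_mul_of_nonneg_right _ h3.le
            nlinarith
        _ ≤ f (v y) := by rw [one_mul]; exact h2)
    (fun y hy _ => by
      have h2 := hvlow y hy
      have h3 := hf.lip (v y) (hv.mem_Icc y) (u (lm • y)) (hu.mem_Icc _)
      have h4 := hcmp y hy
      rw [abs_of_nonneg (sub_nonneg.2 h4)] at h3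
      have h5 := (abs_le.1 h3).1
      have h6 : (1 - lam ^ 2) * (c / 4 * (b * (1 - b))) ≤ (1 - lm ^ 2) * f (v y) := by
        apply mul_le_mul _ h2 (by positivity) (by nlinarith)
        nlinarith
      have h7 : lm ^ 2 * (-(L * (v y - u (lm • y)))) ≤ lm ^ 2 * (f (v y) - f (u (lm • y))) :=
        mul_le_mul_of_nonneg_left h5 (by positivity)
      have h8 : lm ^ 2 * (L * (v y - u (lm • y))) ≤ 1 * (L * (v y - u (lm • y))) := by
        apply mul_le_mul_of_nonneg_right _ (mul_nonneg hL.le (sub_nonneg.2 h4))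
        nlinarith
      have e1 : (1 - lam ^ 2) * c / 4 * (b * (1 - b))
        = (1 - lam ^ 2) * (c / 4 * (b * (1 - b))) := by ring
      rw [e1, one_mul, one_mul]
      nlinarith)
  rw [one_mul] at hmv
  have hmv' : c4 * (b * (1 - b)) ≤ b - u (lm • xη) := by
    refine le_trans (le_of_eq ?_) hmv
    rw [hc4]; ring
  -- upper bound near `y0`
  have hupper : ∀ p ∈ closedBall y0 r', u p ≤ 3 / 2 * b := by
    intro p hp
    have hy : lm⁻¹ • p ∈ closedBall xη r := by
      rw [mem_closedBall, dist_eq_norm]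
      have e1 : lm⁻¹ • p - xη = lm⁻¹ • ((p - y0) + (lη - lm) • xη) := by
        have e2 : (p - y0) + (lη - lm) • xη = p - lm • xη := by
          rw [hy0, sub_smul]; abel
        rw [e2, smul_sub, smul_smul, inv_mul_cancel₀ hlm0.ne', one_smul]
      rw [e1, norm_smul, norm_inv, Real.norm_eq_abs, abs_of_pos hlm0]
      have h2 : ‖(p - y0) + (lη - lm) • xη‖ ≤ r' + 2 * η * r := by
        refine (norm_add_le _ _).trans (add_le_add ?_ hdisp)
        simpa [dist_eq_norm] using hp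
      rw [inv_mul_le_iff₀ hlm0]
      calc ‖(p - y0) + (lη - lm) • xη‖ ≤ r' + 2 * η * r := h2
        _ ≤ l0 * r / 4 + l0 * r / 4 := by rw [hr']; linarith
        _ ≤ lm * r := by nlinarith
    have h2 := hcmp _ hy
    rw [← smul_assoc, smul_eq_mul, mul_inv_cancel₀ hlm0.ne', one_smul] at h2
    have h3 := (abs_le.1 (hmodv _ hy).1).2
    linarith
  have hball2 : ball y0 t ⊆ Ω :=
    hbar Ω r₀ u y0 hΩ hu hy0Ω (fun p hp => (hupper p hp).trans (by
      have : b ≤ u y0 := hle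
      linarith))
  have hy' : lm • xη ∈ closedBall y0 δ5 := by
    rw [mem_closedBall, dist_eq_norm, norm_sub_rev]
    have e1 : y0 - lm • xη = (lη - lm) • xη := by rw [hy0, sub_smul]
    rw [e1]
    exact hdisp.trans hηr5
  obtain ⟨e1, e2⟩ := hmod5 Ω u y0 hΩ.isOpen hu hball2 _ hy'
  have hBup : B ≤ 3 / 2 * b := hupper y0 (mem_closedBall_self hr'pos.le)
  have e3 := (abs_le.1 e1).1
  have e4 := (abs_le.1 e2).1
  have hbB : b ≤ B := hle
  rcases le_or_gt b (1 / 2) with hcase | hcase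
  · nlinarith [mul_pos hc4pos hbpos, mul_le_mul_of_nonneg_left hBup hc4pos.le,
      mul_nonneg (mul_pos hc4pos hbpos).le (sub_nonneg.2 hcase)]
  · nlinarith [mul_pos hc4pos (sub_pos.2 hb1), mul_le_mul_of_nonneg_left hbB hc4pos.le,
      mul_pos (mul_pos hc4pos (sub_pos.2 hb1)) (sub_pos.2 hcase)]

end Pool.Agent.Lib.MP_9a9339_an
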