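import Mathlib
import Pool.Agent.Lib.MP_9a9339_an.Core
import Pool.Agent.Lib.MP_9a9339_an.Hair

set_option autoImplicit false

open Set Filter Topology Metric InnerProductSpace Laplacian MeasureTheory

namespace Pool.Agent.Lib.MP_9a9339_an

open Pool.Agent.Lib.MP_2166fc_an (Sp)

variable {n : ℕ}

namespace UnivAux

/-- the penalisation -/
noncomputable def pen (n : ℕ) (y : Sp n) : ℝ := Real.log (1 + ‖y - 0‖ ^ 2)

lemma pen_nonneg (y : Sp n) : 0 ≤ pen n y := Real.log_nonneg (by nlinarith [sq_nonneg ‖y - 0‖])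

lemma pen_cont : Continuous (pen n) := by
  unfold pen
  refine Continuous.log (by fun_prop) (fun y => ?_)
  positivity

lemma pen_smooth (x : Sp n) : ContDiffAt ℝ 2 (pen n) x := by
  unfold pen
  refine ContDiffAt.log ?_ (by positivity)
  apply ContDiffAt.add contDiffAt_const
  exact (contDiffAt_id.sub contDiffAt_const).norm_sq ℝ

lemma pen_lap (x : Sp n) : |Δ (pen n) x| ≤ 2 * n + 1 := by
  have hs0 : 0 ≤ ‖x - 0‖ ^ 2 := sq_nonneg _
  have h := Pool.Agent.Lib.MP_2166fc_an.lap_radial (n := n) (x0 := 0) (x := x)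
    (Ψ := fun q => Real.log (1 + q)) (Ψ1 := fun q => 1 / (1 + q))
    (b := -1 / (1 + ‖x - 0‖ ^ 2) ^ 2) ?_ ?_
  · have h' : Δ (pen n) x = 4 * ‖x - 0‖ ^ 2 * (-1 / (1 + ‖x - 0‖ ^ 2) ^ 2)
        + 2 * n * (1 / (1 + ‖x - 0‖ ^ 2)) := h
    rw [h']
    generalize ‖x - 0‖ ^ 2 = s at hs0
    have hn : (0 : ℝ) ≤ n := Nat.cast_nonneg n
    have h1 : 0 < 1 + s := by linarith
    have h2 : 0 ≤ 2 * (n : ℝ) * (1 / (1 + s)) := by positivity
    have h3 : 2 * (n : ℝ) * (1 / (1 + s)) ≤ 2 * n := by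
      have : 1 / (1 + s) ≤ 1 := by rw [div_le_one h1]; linarith
      nlinarith
    have h4 : 4 * s * (-1 / (1 + s) ^ 2) = -(4 * s / (1 + s) ^ 2) := by ring
    have h5 : 4 * s / (1 + s) ^ 2 ≤ 1 := by
      rw [div_le_one (by positivity)]
      nlinarith [sq_nonneg (1 - s)]
    have h6 : 0 ≤ 4 * s / (1 + s) ^ 2 := by positivity
    rw [h4, abs_le]
    constructor <;> linarith
  · have hev : ∀ᶠ q in 𝓝 (‖x - 0‖ ^ 2), (-1 : ℝ) < q :=
      eventually_gt_nhds (by linarith)
    filter_upwards [hev] with q hq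
    have h1 : HasDerivAt (fun q : ℝ => 1 + q) 1 q := (hasDerivAt_id q).const_add 1
    exact h1.log (by linarith)
  · have h1 : HasDerivAt (fun q : ℝ => 1 + q) 1 (‖x - 0‖ ^ 2) :=
      (hasDerivAt_id _).const_add 1
    have h2 : HasDerivAt (fun q : ℝ => (1 + q)⁻¹) (-1 / (1 + ‖x - 0‖ ^ 2) ^ 2) (‖x - 0‖ ^ 2) :=
      h1.inv (by positivity)
    simpa only [one_div] using h2

lemma pen_tendsto : Tendsto (pen n) (cocompact (Sp n)) atTop := by
  have h1 : Tendsto (fun y : Sp n => ‖y‖) (cocompact (Sp n)) atTop := tendsto_norm_cocompact_atTop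
  have h2 : Tendsto (fun t : ℝ => Real.log (1 + t ^ 2)) atTop atTop := by
    apply Real.tendsto_log_atTop.comp
    exact tendsto_atTop_add_const_left _ _ (tendsto_pow_atTop (by norm_num))
  have h3 := h2.comp h1
  refine h3.congr (fun y => ?_)
  simp [pen]

lemma lap_comb {g u : Sp n → ℝ} {x : Sp n} (a b : ℝ) (hg : ContDiffAt ℝ 2 g x)
    (hu : ContDiffAt ℝ 2 u x) :
    Δ (fun y => a * g y + b * u y) x = a * Δ g x + b * Δ u x := by
  have h1 : ContDiffAt ℝ 2 (fun y => a * g y) x := contDiffAt_const.mul hg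
  have h2 : ContDiffAt ℝ 2 (fun y => b * u y) x := contDiffAt_const.mul hu
  have h3 : Δ (fun y => a * g y + b * u y) x = Δ (fun y => a * g y) x + Δ (fun y => b * u y) x :=
    h1.laplacian_add h2
  have h4 : Δ (fun y => a * g y) x = a * Δ g x := by
    have := laplacian_smul (𝕜 := ℝ) a hg
    simpa [Pi.smul_def] using this
  have h5 : Δ (fun y => b * u y) x = b * Δ u x := by
    have := laplacian_smul (𝕜 := ℝ) b hu
    simpa [Pi.smul_def] using this
  rw [h3, h4, h5]

end UnivAux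

open UnivAux

/-- T11 (the whole space). -/
theorem univ_eq_one {f : ℝ → ℝ} {c L : ℝ} (hf : React f c L) {u : Sp n → ℝ}
    (hu : Sol (univ : Set (Sp n)) f u) (x : Sp n) : u x = 1 := by
  obtain ⟨R, -, hR⟩ := hair_trigger n hf
  have hhalf : ∀ y, 1 / 2 ≤ u y := fun y => hR univ u y isOpen_univ hu (subset_univ _)
  by_contra hne
  have hlt : u x < 1 := lt_of_le_of_ne (hu.le_one x) hne
  have hn : (0 : ℝ) ≤ n := Nat.cast_nonneg n
  have hc := hf.c_pos
  set s1 : ℝ := (1 + u x) / 2 with hs1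
  set A : ℝ := c * (1 / 2) * (1 - s1) with hA
  have hA0 : 0 < A := by
    apply mul_pos (by positivity)
    rw [hs1]; linarith
  set ε : ℝ := min (A / (2 * (2 * n + 1))) ((1 - u x) / (2 * (pen n x + 1))) with hε
  have hp0 := pen_nonneg x
  have hε0 : 0 < ε := by
    apply lt_min
    · positivity
    · apply div_pos (by linarith) (by positivity)
  have hε1 : ε * (2 * n + 1) < A := by
    have h1 : ε ≤ A / (2 * (2 * n + 1)) := min_le_left _ _
    rw [le_div_iff₀ (by positivity)] at h1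
    nlinarith
  have hε2 : ε * pen n x ≤ (1 - u x) / 2 := by
    have h1 : ε ≤ (1 - u x) / (2 * (pen n x + 1)) := min_le_right _ _
    rw [le_div_iff₀ (by positivity)] at h1
    nlinarith
  have hcont : Continuous (fun y => ε * pen n y + 1 * u y) :=
    (continuous_const.mul pen_cont).add (continuous_const.mul hu.cont)
  have hcoc : ∀ᶠ y in cocompact (Sp n), ε * pen n x + 1 * u x ≤ ε * pen n y + 1 * u y := by
    have h1 := pen_tendsto (n := n) |>.eventually_ge_atTop ((ε * pen n x + u x) / ε)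
    filter_upwards [h1] with y hy
    rw [div_le_iff₀ hε0] at hy
    have := hu.nonneg y
    linarith
  obtain ⟨z, hz⟩ := hcont.exists_forall_le' x hcoc
  have hsm : ContDiffAt ℝ 2 u z := hu.smooth.contDiffAt (univ_mem)
  have hmin : IsLocalMin (fun y => ε * pen n y + 1 * u y) z := Eventually.of_forall hz
  have hlap := Pool.Agent.Lib.MP_2166fc_an.lap_nonneg_of_isLocalMin
    ((contDiffAt_const.mul (pen_smooth z)).add (contDiffAt_const.mul hsm)) hmin
  have hlap' : Δ (fun y => ε * pen n y + 1 * u y) z = ε * Δ (pen n) z + 1 * Δ u z :=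
    lap_comb ε 1 (pen_smooth z) hsm
  rw [hlap', hu.eq z (mem_univ z)] at hlap
  have hpl := (abs_le.1 (pen_lap z)).2
  have h1 : f (u z) ≤ ε * (2 * n + 1) := by nlinarith
  have h2 := hf.lower (u z) (hu.mem_Icc z)
  have h3 : u z ≤ s1 := by
    have h4 := hz x
    have h5 := pen_nonneg z
    have h6 : 0 ≤ ε * pen n z := by positivity
    rw [hs1]; linarith
  have h4 := hhalf z
  have h5 : A ≤ c * (u z * (1 - u z)) := by
    rw [hA]
    have : (1 / 2 : ℝ) * (1 - s1) ≤ u z * (1 - u z) := by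
      have h7 : 0 < 1 - s1 := by rw [hs1]; linarith
      nlinarith
    nlinarith
  linarith

/-- T11 (bounded solutions are at most one). -/
theorem le_one_of_bounded {Ω : Set (Sp n)} (hΩ : IsOpen Ω) {f : ℝ → ℝ}
    (hfc : ContinuousOn f (Ici 0)) (hneg : ∀ s, 1 < s → f s < 0) {u : Sp n → ℝ}
    (hc : Continuous u) (hz : ∀ x ∉ Ω, u x = 0) (hs : ContDiffOn ℝ 2 u Ω)
    (he : ∀ x ∈ Ω, Δ u x = - f (u x)) {B : ℝ} (hB : ∀ x, u x ≤ B) (x : Sp n) : u x ≤ 1 := by
  by_contra hlt
  push Not at hlt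
  have hn : (0 : ℝ) ≤ n := Nat.cast_nonneg n
  set s0 : ℝ := (1 + u x) / 2 with hs0
  have hs01 : 1 < s0 := by rw [hs0]; linarith
  have hs0B : s0 ≤ B := by
    have := hB x
    rw [hs0]; linarith
  obtain ⟨t, ht, htmax⟩ := (isCompact_Icc (a := s0) (b := B)).exists_isMaxOn
    ⟨s0, left_mem_Icc.2 hs0B⟩ (hfc.mono (fun s hs => by
      rw [mem_Ici]; linarith [hs.1]))
  have hft : f t < 0 := hneg t (lt_of_lt_of_le hs01 ht.1)
  set A : ℝ := - f t with hA
  have hA0 : 0 < A := by rw [hA]; linarith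
  set ε : ℝ := min (A / (2 * (2 * n + 1))) ((u x - 1) / (2 * (pen n x + 1))) with hε
  have hp0 := pen_nonneg x
  have hε0 : 0 < ε := by
    apply lt_min
    · positivity
    · apply div_pos (by linarith) (by positivity)
  have hε1 : ε * (2 * n + 1) < A := by
    have h1 : ε ≤ A / (2 * (2 * n + 1)) := min_le_left _ _
    rw [le_div_iff₀ (by positivity)] at h1
    nlinarith
  have hε2 : ε * pen n x ≤ (u x - 1) / 2 := by
    have h1 : ε ≤ (u x - 1) / (2 * (pen n x + 1)) := min_le_right _ _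
    rw [le_div_iff₀ (by positivity)] at h1
    nlinarith
  have hcont : Continuous (fun y => ε * pen n y + (-1) * u y) :=
    (continuous_const.mul pen_cont).add (continuous_const.mul hc)
  have hcoc : ∀ᶠ y in cocompact (Sp n), ε * pen n x + (-1) * u x ≤ ε * pen n y + (-1) * u y := by
    have h1 := pen_tendsto (n := n) |>.eventually_ge_atTop ((ε * pen n x - u x + B) / ε)
    filter_upwards [h1] with y hy
    rw [div_le_iff₀ hε0] at hy
    have := hB y
    linarith
  obtain ⟨z, hzmin⟩ := hcont.exists_forall_le' x hcoc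
  have h3 : s0 ≤ u z := by
    have h4 := hzmin x
    have h5 := pen_nonneg z
    have h6 : 0 ≤ ε * pen n z := by positivity
    rw [hs0]; linarith
  have hzΩ : z ∈ Ω := by
    by_contra hno
    rw [hz z hno] at h3
    linarith
  have hsm : ContDiffAt ℝ 2 u z := hs.contDiffAt (hΩ.mem_nhds hzΩ)
  have hmin : IsLocalMin (fun y => ε * pen n y + (-1) * u y) z := Eventually.of_forall hzmin
  have hlap := Pool.Agent.Lib.MP_2166fc_an.lap_nonneg_of_isLocalMin
    ((contDiffAt_const.mul (pen_smooth z)).add (contDiffAt_const.mul hsm)) hmin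
  have hlap' : Δ (fun y => ε * pen n y + (-1) * u y) z = ε * Δ (pen n) z + (-1) * Δ u z :=
    lap_comb ε (-1) (pen_smooth z) hsm
  rw [hlap', he z hzΩ] at hlap
  have hpl := (abs_le.1 (pen_lap z)).2
  have h1 : -f (u z) ≤ ε * (2 * n + 1) := by nlinarith
  have h2 : f (u z) ≤ f t := htmax ⟨h3, hB z⟩
  linarith

end Pool.Agent.Lib.MP_9a9339_an
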