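import Mathlib
import Pool.Agent.Lib.MP_9a9339_an.Main
import Pool.Agent.Lib.MP_9a9339_an.Univ
import Pool.Agent.Lib.MP_9a9339_an.Mg.G004

set_option autoImplicit false

open Set Filter Topology Metric InnerProductSpace Laplacian MeasureTheory

namespace Pool.Agent.Lib.MP_9a9339_an

variable {d : ℕ}

lemma frontier_eq_of_isOpen {Ω : Set (E d)} (hΩ : IsOpen Ω) {x : E d} (hx : x ∈ closure Ω)
    (hx' : x ∉ Ω) : x ∈ frontier Ω := by
  rw [frontier, hΩ.interior_eq]
  exact ⟨hx, hx'⟩

/-- Extension by zero of a positive bounded solution. -/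
lemma IsPositiveBoundedSolution.sol {Ω : Set (E d)} (hΩ : IsOpen Ω) {γ : ℝ} {f : ℝ → ℝ}
    (hf : IsReaction γ f) {u : E d → ℝ} (hu : IsPositiveBoundedSolution Ω f u) :
    Sol Ω f (Ω.indicator u) := by
  have hcont : Continuous (Ω.indicator u) :=
    continuous_indicator hu.boundary hu.continuousOn
  have hzero : ∀ x ∉ Ω, Ω.indicator u x = 0 := fun x hx => indicator_of_notMem hx u
  have heqx : ∀ x ∈ Ω, Ω.indicator u x = u x := fun x hx => indicator_of_mem hx u
  have hsm : ContDiffOn ℝ 2 (Ω.indicator u) Ω := hu.regular.congr heqx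
  have heq : ∀ x ∈ Ω, Δ (Ω.indicator u) x = - f (Ω.indicator u x) := by
    intro x hx
    have h1 : Ω.indicator u =ᶠ[𝓝 x] u := by
      filter_upwards [hΩ.mem_nhds hx] with y hy using heqx y hy
    have h2 := (laplacian_congr_nhds h1).eq_of_nhds
    rw [h2, heqx x hx, ← hu.eq x hx]
    ring
  have hfc : ContinuousOn f (Ici 0) := by
    obtain ⟨f', hf', -⟩ := hf.smooth
    exact fun s hs => (hf' s hs).continuousWithinAt
  obtain ⟨B, hB⟩ := hu.bounded
  have hB' : ∀ x, Ω.indicator u x ≤ max B 0 := by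
    intro x
    by_cases hx : x ∈ Ω
    · rw [heqx x hx]; exact (hB x hx).trans (le_max_left _ _)
    · rw [hzero x hx]; exact le_max_right _ _
  exact
    { cont := hcont
      zero := hzero
      pos := fun x hx => by rw [heqx x hx]; exact hu.pos x hx
      smooth := hsm
      eq := heq
      le_one := le_one_of_bounded hΩ hfc hf.neg hcont hzero hsm heq hB' }

/-- Translation of solutions. -/
lemma Sol.translate {Ω : Set (E d)} (hΩ : IsOpen Ω) {f : ℝ → ℝ} {u : E d → ℝ} (hu : Sol Ω f u)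
    (b : E d) : Sol ((fun x => x + b) ⁻¹' Ω) f (fun x => u (x + b)) where
  cont := hu.cont.comp (by fun_prop)
  zero := fun x hx => hu.zero (x + b) hx
  pos := fun x hx => hu.pos (x + b) hx
  smooth := by
    have : ContDiffOn ℝ 2 (fun x : E d => x + b) ((fun x => x + b) ⁻¹' Ω) := by fun_prop
    exact hu.smooth.comp this (fun x hx => hx)
  eq := by
    intro x hx
    have h1 : ContDiffAt ℝ 2 u (x + b) := hu.smooth.contDiffAt (hΩ.mem_nhds hx)
    rw [lap_comp_add h1]
    exact hu.eq (x + b) hx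
  le_one := fun x => hu.le_one (x + b)

/-- The translated domain satisfies the geometric hypotheses. -/
lemma exists_dom {γ : ℝ} {Ω : Set (E d)} (hΩ : IsUniformDomain γ Ω) (hstar : StronglyExteriorStar Ω) :
    ∃ (b : E d) (r₀ ρ : ℝ), Dom ((fun x => x + b) ⁻¹' Ω) r₀ ρ := by
  obtain ⟨ρ, hρ, hext⟩ := hΩ.uniformlyC2.exists_ext_ball hΩ.isOpen
  obtain ⟨U, hU, ⟨b, hb⟩, hst⟩ := hstar
  obtain ⟨r₀, hr₀, hball⟩ := Metric.isOpen_iff.1 hU b hb
  refine ⟨b, r₀, ρ, ?_⟩
  refine
    { isOpen := hΩ.isOpen.preimage (by fun_prop)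
      r₀_pos := hr₀
      ρ_pos := hρ
      star := ?_
      ext := ?_ }
  · intro z hz y hy t ht
    have h1 : z + b ∈ U := hball (by simpa [mem_ball, dist_eq_norm] using hz)
    have h2 := hst (z + b) h1 (y + b) hy
    have h3 : (1 - t) • y + t • z + b ∈ segment ℝ (y + b) (z + b) :=
      ⟨1 - t, t, by linarith [ht.2], ht.1, by ring, by module⟩
    exact h2 h3
  · intro p hp s hs0 hs
    have h1 : (fun x : E d => x + b) ⁻¹' Ω = (Homeomorph.addRight b) ⁻¹' Ω := rfl
    rw [h1, ← (Homeomorph.addRight b).preimage_frontier] at hp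
    have hp' : p + b ∈ frontier Ω := hp
    obtain ⟨q, hq, hdisj⟩ := hext (p + b) hp' s hs0 hs
    refine ⟨q - b, ?_, ?_⟩
    · rw [← hq, dist_eq_norm, dist_eq_norm]
      congr 1
      abel
    · rw [Set.disjoint_left] at hdisj ⊢
      intro x hx hxΩ
      refine hdisj (a := x + b) ?_ hxΩ
      rw [mem_ball, dist_eq_norm] at hx ⊢
      have : x + b - q = x - (q - b) := by abel
      rwa [this]

lemma le_of_main {Ω : Set (E d)} {r₀ ρ : ℝ} (hΩ : Dom Ω r₀ ρ) {f : ℝ → ℝ} {c L : ℝ}
    (hf : React f c L) {u v : E d → ℝ} (hu : Sol Ω f u) (hv : Sol Ω f v)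
    (hv1 : ∀ x, v x < 1) (x : E d) : u x ≤ v x := by
  have h1 : Tendsto (fun lam : ℝ => u (lam • x)) (𝓝[<] 1) (𝓝 (u x)) := by
    have h2 : Continuous (fun lam : ℝ => u (lam • x)) := hu.cont.comp (by fun_prop)
    have h3 := h2.tendsto 1
    simp only [one_smul] at h3
    exact h3.mono_left nhdsWithin_le_nhds
  refine le_of_tendsto h1 ?_
  have h2 : Ioo (0:ℝ) 1 ∈ 𝓝[<] (1:ℝ) := Ioo_mem_nhdsLT (by norm_num)
  filter_upwards [h2] with lam hlam
  exact main_step hΩ hf hu hv hv1 hlam.1 hlam.2 x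

/-- Final theorem: at most one positive bounded solution. -/
theorem uniqueness {d : ℕ} {γ : ℝ} (hγ : 0 < γ) {Ω : Set (E d)} (hΩ : IsUniformDomain γ Ω)
    (hstar : StronglyExteriorStar Ω) {f : ℝ → ℝ} (hf : IsPositiveReaction γ f) {u v : E d → ℝ}
    (hu : IsPositiveBoundedSolution Ω f u) (hv : IsPositiveBoundedSolution Ω f v) :
    ∀ x ∈ closure Ω, u x = v x := by
  obtain ⟨c, L, hR⟩ := hf.exists_react hγ
  have hus := hu.sol hΩ.isOpen hf.toIsReaction
  have hvs := hv.sol hΩ.isOpen hf.toIsReaction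
  have key : ∀ x, Ω.indicator u x = Ω.indicator v x := by
    by_cases huniv : Ω = univ
    · subst huniv
      intro x
      rw [univ_eq_one hR hus x, univ_eq_one hR hvs x]
    · have hu1 : ∀ x, Ω.indicator u x < 1 :=
        lt_one hΩ.isOpen hΩ.isConnected.isPreconnected huniv hR hus
      have hv1 : ∀ x, Ω.indicator v x < 1 :=
        lt_one hΩ.isOpen hΩ.isConnected.isPreconnected huniv hR hvs
      obtain ⟨b, r₀, ρ, hD⟩ := exists_dom hΩ hstar
      have hus' := hus.translate hΩ.isOpen b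
      have hvs' := hvs.translate hΩ.isOpen b
      intro x
      have h1 := le_of_main hD hR hus' hvs' (fun y => hv1 (y + b)) (x - b)
      have h2 := le_of_main hD hR hvs' hus' (fun y => hu1 (y + b)) (x - b)
      simp only [sub_add_cancel] at h1 h2
      exact le_antisymm h1 h2
  intro x hx
  by_cases hxΩ : x ∈ Ω
  · have := key x
    rwa [indicator_of_mem hxΩ, indicator_of_mem hxΩ] at this
  · have hfr := frontier_eq_of_isOpen hΩ.isOpen hx hxΩ
    rw [hu.boundary x hfr, hv.boundary x hfr]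

end Pool.Agent.Lib.MP_9a9339_an
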